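import Pool.Agent.Lib.MP_dd0771_pr.Z.Inf
import Pool.Agent.Lib.MP_dd0771_pr.Sc.Defs

/-! Deterministic comparison of the killed system with the systems of the discrete model. -/

namespace Pool.Agent.Lib.MP_dd0771_pr.Z

open scoped ENNReal

variable {d : ℕ} {G : Sc.Md} {K : ℕ} {Q Z : Finset (S d)}

lemma nb_eq (x : S d) (e : Dir d) : Sc.nb x e = nb x e := rfl

lemma alk_eq (K : ℕ) (Q : Finset (S d)) : Sc.alk K Q = kal K Q := by
  ext ⟨x, _ | ⟨e, k⟩⟩
  · simp [Sc.alk, mem_kal_none]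
  · simp [Sc.alk, mem_kal_some]

lemma mem_al_none {x : S d} : (x, none) ∈ Sc.al K Q ↔ x ∈ Q := by simp [Sc.al]

lemma mem_al_some {x : S d} {e : Dir d} {k : ℕ} :
    (x, some (e, k)) ∈ Sc.al K Q ↔ x ∈ Q ∧ k < K ∧ nb x e ∈ Q := by
  simp [Sc.al, nb_eq, and_assoc]

lemma al_subset (K : ℕ) (Q : Finset (S d)) : Sc.al K Q ⊆ kal K Q := by
  rintro ⟨x, _ | ⟨e, k⟩⟩ h
  · exact mem_kal_none.2 (mem_al_none.1 h)
  · exact mem_kal_some.2 ⟨(mem_al_some.1 h).1, (mem_al_some.1 h).2.1⟩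

lemma lk_snoc (Y : Sc.Sys d) (σ : Sc.St d) (w : List (S d × Clk d)) (a : S d × Clk d) :
    Sc.acw G Y σ (w ++ [a]) = Sc.ac G Y (Sc.acw G Y σ w) a := by simp [Sc.acw]

lemma lk_mw_snoc (A : Finset (S d × Clk d)) (η : S d → ℕ) (w : List (S d × Clk d))
    (a : S d × Clk d) : Sc.mw A η (w ++ [a]) = Sc.mv A (Sc.mw A η w) a := by simp [Sc.mw]

lemma lk_ac_fst (Y : Sc.Sys d) (σ : Sc.St d) (a : S d × Clk d) :
    (Sc.ac G Y σ a).1 = Sc.mv Y.A σ.1 a := by
  obtain ⟨x, _ | q⟩ := a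
  · rfl
  · simp only [Sc.ac, Sc.mv]
    split_ifs <;> rfl

lemma lk_fst (Y : Sc.Sys d) (σ : Sc.St d) (w : List (S d × Clk d)) :
    (Sc.acw G Y σ w).1 = Sc.mw Y.A σ.1 w := by
  induction w using List.reverseRecOn with
  | nil => rfl
  | append_singleton w a ih => rw [lk_snoc, lk_mw_snoc, lk_ac_fst, ih]

lemma lk_reg {Y : Sc.Sys d} {σ : Sc.St d} (h : Sc.Reg G Y.Z σ) (w : List (S d × Clk d)) :
    Sc.Reg G Y.Z (Sc.acw G Y σ w) := by
  induction w using List.reverseRecOn with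
  | nil => exact h
  | append_singleton w a ih =>
    rw [lk_snoc]
    obtain ⟨x, _ | q⟩ := a
    · intro y hy
      simp only [Sc.ac] at hy ⊢
      split_ifs at hy
      · exact ih y (Finset.mem_of_mem_erase hy)
      · exact ih y hy
    · simp only [Sc.ac]
      split_ifs with h1 h2
      · intro y hy
        obtain ⟨h3, h4⟩ := Finset.mem_filter.1 hy
        rcases Finset.mem_insert.1 h3 with h5 | h5
        · exact ⟨h5 ▸ h2.2, h4⟩
        · exact ⟨(ih y h5).1, h4⟩
      · intro y hy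
        obtain ⟨h3, h4⟩ := Finset.mem_filter.1 hy
        exact ⟨(ih y h3).1, h4⟩
      · exact ih

lemma lk_ini (G : Sc.Md) (Z Y0 : Finset (S d)) (η : S d → ℕ) : Sc.Reg G Z (Sc.ini G Z Y0 η) := by
  intro x hx
  simp only [Sc.ini, Finset.mem_filter, Finset.mem_inter] at hx
  exact ⟨hx.1.2, hx.2⟩

lemma lk_filter (Y : Sc.Sys d) (σ : Sc.St d) (w : List (S d × Clk d)) :
    Sc.acw G Y σ (w.filter fun a => a ∈ Y.A) = Sc.acw G Y σ w := by
  induction w using List.reverseRecOn with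
  | nil => rfl
  | append_singleton w a ih =>
    rw [List.filter_append, lk_snoc]
    by_cases h : a ∈ Y.A
    · rw [List.filter_cons_of_pos (by simpa using h), List.filter_nil, lk_snoc, ih]
    · rw [List.filter_cons_of_neg (by simpa using h), List.filter_nil, List.append_nil, ih]
      obtain ⟨x, _ | q⟩ := a <;> simp [Sc.ac, h]

lemma lk_mw_filter (A : Finset (S d × Clk d)) (η : S d → ℕ) (w : List (S d × Clk d)) :
    Sc.mw A η (w.filter fun a => a ∈ A) = Sc.mw A η w := by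
  have := congrArg Prod.fst (lk_filter (G := ⟨0, 0, 0⟩) ⟨A, ∅⟩ (η, ∅) w)
  rwa [lk_fst, lk_fst] at this

lemma lk_acs (Y : Sc.Sys d) (σ : Sc.St d) (ws : List (List (S d × Clk d))) :
    Sc.acs G Y σ ws = Sc.acw G Y σ ws.flatten := by
  simp only [Sc.acs, Sc.acw, List.foldl_flatten]
  rfl

lemma lk_ms (A : Finset (S d × Clk d)) (η : S d → ℕ) (ws : List (List (S d × Clk d)))
    (w : List (S d × Clk d)) : Sc.mw A (Sc.ms A η ws) w = Sc.mw A η (ws.flatten ++ w) := by
  simp only [Sc.ms, Sc.mw, List.foldl_append, List.foldl_flatten]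
  rfl

lemma lk_take {α : Type} (ws : List (List α)) (h : ws ≠ []) (n : ℕ) :
    ∃ u w i, ws[u]? = some w ∧ ws.flatten.take n = (ws.take u).flatten ++ w.take i := by
  induction ws generalizing n with
  | nil => exact absurd rfl h
  | cons w ws ih =>
    by_cases h1 : ws = []
    · exact ⟨0, w, n, rfl, by simp [h1]⟩
    by_cases h2 : n ≤ w.length
    · exact ⟨0, w, n, rfl, by simp [List.take_append_of_le_length h2]⟩
    · obtain ⟨u, w', i, h3, h4⟩ := ih h1 (n - w.length)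
      refine ⟨u + 1, w', i, by simpa using h3, ?_⟩
      rw [List.flatten_cons, List.take_append, h4, List.take_of_length_le (by omega)]
      simp

/-- The killed system is below the reflected one. -/
lemma lk_le (η : S d → ℕ) (w : List (S d × Clk d)) :
    ∀ x ∈ Q, Sc.mw (kal K Q) η w x ≤ Sc.mw (Sc.al K Q) η w x := by
  induction w using List.reverseRecOn with
  | nil => exact fun _ _ => le_rfl
  | append_singleton w a ih =>
    rw [lk_mw_snoc, lk_mw_snoc]
    obtain ⟨x, _ | ⟨e, k⟩⟩ := a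
    · exact ih
    intro z hz
    have h1 := ih z hz
    simp only [Sc.mv, mem_kal_some, mem_al_some, nb_eq]
    by_cases hx : x ∈ Q
    swap
    · simpa [hx] using h1
    have h2 := ih x hx
    generalize Sc.mw (kal K Q) η w = ζ at *
    generalize Sc.mw (Sc.al K Q) η w = ξ at *
    have h3 := nb_ne x e
    by_cases h4 : z = x
    · subst h4
      by_cases h5 : nb z e ∈ Q <;>
        simp only [hx, h5, true_and, and_true, and_false, false_and, if_false] <;>
        split_ifs <;> (try simp only [Sc.hop, h3.symm, if_true, if_false]) <;> omega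
    by_cases h5 : z = nb x e
    · subst h5
      simp only [hx, hz, true_and, and_true]
      split_ifs <;> (try simp only [Sc.hop, h3, if_true, if_false]) <;> omega
    · split_ifs <;> (try simp only [Sc.hop, h4, h5, if_false]) <;> omega

/-- Comparison of infected sets. -/
lemma lk_cmp (hj : 1 ≤ G.j) {A1 A2 : Finset (S d × Clk d)} {σ τ : Sc.St d} (h : Sc.Reg G Z σ)
    (h0 : σ.2 ⊆ τ.2) (hA : ∀ a : S d × Clk d, a.1 ∈ Z → (a ∈ A1 ↔ a ∈ A2))
    (w : List (S d × Clk d))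
    (hle : ∀ n, ∀ x ∈ Z, Sc.mw A1 σ.1 (w.take n) x ≤ Sc.mw A2 τ.1 (w.take n) x) :
    (Sc.acw G ⟨A1, Z⟩ σ w).2 ⊆ (Sc.acw G ⟨A2, Z⟩ τ w).2 := by
  induction w using List.reverseRecOn with
  | nil => exact h0
  | append_singleton w a ih =>
    have h1 : ∀ n, ∀ x ∈ Z, Sc.mw A1 σ.1 (w.take n) x ≤ Sc.mw A2 τ.1 (w.take n) x := by
      intro n
      have := hle (min n w.length)
      rwa [List.take_append_of_le_length (min_le_right _ _), ← List.take_take,
        List.take_length] at this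
    have h2 := ih h1
    have h3 := h1 w.length
    have h4 := hle (w ++ [a]).length
    have h5 := lk_reg (Y := ⟨A1, Z⟩) h w
    have h6 := lk_reg (Y := ⟨A1, Z⟩) h (w ++ [a])
    rw [List.take_length, ← lk_fst (G := G) ⟨A1, Z⟩, ← lk_fst (G := G) ⟨A2, Z⟩] at h3 h4
    rw [lk_snoc] at h6
    rw [lk_snoc, lk_snoc] at h4 ⊢
    generalize Sc.acw G ⟨A1, Z⟩ σ w = s at *
    generalize Sc.acw G ⟨A2, Z⟩ τ w = s' at *
    intro z hz
    have h7 := (h6 z hz).2.trans (h4 z (h6 z hz).1)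
    obtain ⟨x, _ | q⟩ := a
    · simp only [Sc.ac] at hz ⊢
      have h8 : z ∈ s.2 := by
        split_ifs at hz
        · exact Finset.mem_of_mem_erase hz
        · exact hz
      split_ifs with h9
      · refine Finset.mem_erase.2 ⟨fun h10 => ?_, h2 h8⟩
        subst h10
        have h11 := h5 z h8
        have h12 := h3 z h11.1
        rw [if_pos ⟨(hA _ h11.1).2 h9.1, by omega⟩] at hz
        exact (Finset.mem_erase.1 hz).1 rfl
      · exact h2 h8
    · simp only [Sc.ac] at hz h7 ⊢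
      have h8 : z ∈ s.2 ∨ (z = Sc.nb x q.1 ∧ x ∈ s.2 ∧ z ∈ Z ∧ (x, some q) ∈ A1 ∧ q.2 < s.1 x) := by
        split_ifs at hz with h8 h9
        · rcases Finset.mem_insert.1 (Finset.mem_filter.1 hz).1 with h10 | h10
          · exact Or.inr ⟨h10, h9.1, h10 ▸ h9.2, h8⟩
          · exact Or.inl h10
        · exact Or.inl (Finset.mem_filter.1 hz).1
        · exact Or.inl hz
      by_cases h9 : (x, some q) ∈ A2 ∧ q.2 < s'.1 x
      · rw [if_pos h9] at h7 ⊢
        refine Finset.mem_filter.2 ⟨?_, h7⟩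
        rcases h8 with h8 | h8
        · split_ifs
          · exact Finset.mem_insert_of_mem (h2 h8)
          · exact h2 h8
        · rw [if_pos ⟨h2 h8.2.1, h8.1 ▸ h8.2.2.1⟩, h8.1]
          exact Finset.mem_insert_self _ _
      · rw [if_neg h9]
        rcases h8 with h8 | h8
        · exact h2 h8
        · have h10 := (h5 x h8.2.1).1
          exact absurd ⟨(hA _ h10).1 h8.2.2.2.1, h8.2.2.2.2.trans_le (h3 x h10)⟩ h9

variable {ω : Omega d}

lemma lk_krun (w : List (S d × Clk d)) (hw : ∀ a ∈ w, a ∈ kal K Q) :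
    ∀ x ∈ Q, Sc.mw (kal K Q) (init Q ω) w x = krun Q ω w x := by
  induction w using List.reverseRecOn with
  | nil => exact fun _ _ => rfl
  | append_singleton w a ih =>
    have h1 := ih fun b hb => hw b (List.mem_append_left _ hb)
    have h2 := hw a (by simp)
    rw [lk_mw_snoc, krun_snoc]
    obtain ⟨x, _ | ⟨e, k⟩⟩ := a
    · exact h1
    intro z hz
    simp only [Sc.mv, app, h2, true_and, h1 x (mem_kal_some.1 h2).1, nb_eq]
    split_ifs
    · simp only [Sc.hop, move, h1 z hz]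
      by_cases h3 : z = nb x e
      · simp [← h3, hz]
      · simp [h3]
    · exact h1 z hz

lemma lk_isInf {δ : ℝ≥0∞} (hj : G.j = jd δ) (hZ : Z ⊆ Q) (h0 : 0 ∈ Z) :
    IsInf δ K Q Z ω fun w => (Sc.acw G ⟨kal K Q, Z⟩ (Sc.ini G Z {0} (init Q ω)) w).2 := by
  have hf : ∀ w, (∀ a ∈ w, a ∈ kal K Q) → ∀ x ∈ Q,
      (Sc.acw G ⟨kal K Q, Z⟩ (Sc.ini G Z {0} (init Q ω)) w).1 x = krun Q ω w x := fun w hw x hx => by
    rw [lk_fst]; exact lk_krun w hw x hx
  have hr := fun w => lk_reg (Y := ⟨kal K Q, Z⟩) (lk_ini G Z {0} (init Q ω)) w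
  refine ⟨fun y => ?_, fun w hw x hx y => ?_, fun w hw x hx k hk e h => ?_,
    fun w hw x hx k hk e h y => ?_⟩
  · simp only [Sc.acw, List.foldl_nil, Sc.ini, Finset.mem_filter, Finset.mem_inter,
      Finset.mem_singleton, hj]
    exact ⟨fun h => ⟨h.1.1, h.1.1 ▸ h.2⟩, fun h => ⟨⟨h.1, h.1 ▸ h0⟩, h.1 ▸ h.2⟩⟩
  · simp only [lk_snoc, Sc.ac, mem_kal_none.2 hx, true_and, hf w hw x hx]
    split_ifs with h
    · simp [h, and_comm]
    · simp [h]
  · simp only [lk_snoc, Sc.ac, hf w hw x hx, h, and_false, if_false]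
  · have h1 := hf (w ++ [(x, some (e, k))]) (by
      intro a ha
      rcases List.mem_append.1 ha with h1 | h1
      · exact hw a h1
      · rw [List.mem_singleton.1 h1]; exact mem_kal_some.2 ⟨hx, hk⟩)
    have h2 := hr w
    rw [lk_snoc] at h1
    simp only [lk_snoc]
    have h3 := hf w hw x hx
    generalize Sc.acw G ⟨kal K Q, Z⟩ (Sc.ini G Z {0} (init Q ω)) w = s at *
    simp only [Sc.ac, mem_kal_some.2 ⟨hx, hk⟩, true_and, h3, h, if_true, nb_eq, hj] at h1 ⊢
    rw [Finset.mem_filter]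
    constructor
    · rintro ⟨h4, h5⟩
      have h6 : (y ∈ s.2 ∨ y = nb x e ∧ x ∈ s.2) ∧ y ∈ Z := by
        split_ifs at h4 with h6
        · rcases Finset.mem_insert.1 h4 with h7 | h7
          · exact ⟨Or.inr ⟨h7, h6.1⟩, h7 ▸ h6.2⟩
          · exact ⟨Or.inl h7, (h2 y h7).1⟩
        · exact ⟨Or.inl h4, (h2 y h4).1⟩
      exact ⟨h6.1, h6.2, h1 y (hZ h6.2) ▸ h5⟩
    · rintro ⟨h4, h5, h6⟩
      refine ⟨?_, (h1 y (hZ h5)).symm ▸ h6⟩
      rcases h4 with h4 | h4
      · split_ifs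
        · exact Finset.mem_insert_of_mem h4
        · exact h4
      · rw [if_pos ⟨h4.2, h4.1 ▸ h5⟩, h4.1]
        exact Finset.mem_insert_self _ _

end Pool.Agent.Lib.MP_dd0771_pr.Z
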