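import Pool.Agent.Lib.MP_dd0771_pr.Z.Law
import Pool.Agent.Lib.MP_dd0771_pr.Z.Link
import Pool.Agent.Lib.MP_dd0771_pr.Sc.Geo
import Pool.Agent.Lib.MP_dd0771_pr.Sc.Site
import Pool.Agent.Lib.MP_dd0771_pr.Sc.Stm3

/-! From the discrete model to the process in infinite volume. -/

open MeasureTheory ProbabilityTheory Set Filter Topology
open scoped NNReal ENNReal

namespace Pool.Agent.Lib.MP_dd0771_pr.Z

variable {d : ℕ} {g : ℕ → ℝ} {δ : ℝ≥0∞} {ω : Omega d}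

/-- Infected set at time `t` of the system in the box of size `N` that reads the alphabet `A`. -/
noncomputable def sI (g : ℕ → ℝ) (δ : ℝ≥0∞) (A : Finset (S d × Clk d)) (N K : ℕ) (ω : Omega d)
    (t : ℝ) : Finset (S d) :=
  (Sc.acw (md g δ) ⟨A, Sc.bx 0 N⟩ (Sc.ini (md g δ) (Sc.bx 0 N) {0} (init (Sc.bx 0 (2 * N)) ω))
    ((en (kal K (Sc.bx 0 (2 * N))) ω t).map Prod.fst)).2

lemma end_box (A : Finset (S d)) : ∃ N, ∀ N' ≥ N, A ⊆ Sc.bx 0 N' :=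
  ⟨A.sup Sc.nrm, fun _ h x hx => Sc.mem_bx.2 (by
    rw [sub_zero]; exact (Finset.le_sup (f := Sc.nrm) hx).trans h)⟩

lemma end_sub (N : ℕ) : Sc.bx (0 : S d) N ⊆ Sc.bx 0 (2 * N) := Sc.bx_mono _ (by omega)

lemma end_inf (hG : Good ω) {N K : ℕ} (hK : mass (Sc.bx 0 (2 * N)) ω ≤ K) {t : ℝ} (ht : 0 ≤ t) :
    ∀ y ∈ sI g δ (kal K (Sc.bx 0 (2 * N))) N K ω t, Infected δ ω t y :=
  IsInf.infected hG hK (hG.en_spec _) (lk_isInf (G := md g δ) rfl (end_sub N)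
    (Sc.self_mem_bx _ _)) ht

lemma end_cover (hG : Good ω) (hB : Bdd ω) {t : ℝ} (ht : 0 ≤ t) {y : S d} (h : Infected δ ω t y) :
    ∃ N0, ∀ N ≥ N0, ∀ K ≥ mass (Sc.bx 0 (2 * N)) ω,
      y ∈ sI g δ (kal K (Sc.bx 0 (2 * N))) N K ω t := by
  obtain ⟨γ, hγ, h0, rfl⟩ := h
  obtain ⟨V, hV⟩ := hγ.finite ht
  choose A0 hA using eta_attained_Icc hG hB t
  obtain ⟨N0, hN⟩ := end_box (V ∪ V.biUnion A0)
  refine ⟨N0, fun N h1 K hK => ?_⟩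
  refine IsInf.path hG hK (hG.en_spec _) (lk_isInf (G := md g δ) rfl (end_sub N)
    (Sc.self_mem_bx _ _)) ht hγ h0 (fun u hu => hN N h1 (Finset.mem_union_left _ (hV u hu)))
    (fun v hv u hu => ?_) t ⟨ht, le_rfl⟩
  refine hA (γ v) _ _ (fun z hz => end_sub N (hN N h1 (Finset.mem_union_right _ ?_)))
    (hG.isEvol hK (hG.en_spec _)) u hu
  exact Finset.mem_biUnion.2 ⟨_, hV v hv, hz⟩

lemma end_agree {K r R : ℕ} (h : r < R) (a : S d × Clk d) (ha : a.1 ∈ Sc.bx 0 r) :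
    a ∈ kal K (Sc.bx 0 R) ↔ a ∈ Sc.al K (Sc.bx 0 R) := by
  obtain ⟨x, _ | ⟨e, k⟩⟩ := a
  · rw [mem_kal_none, mem_al_none]
  · rw [mem_kal_some, mem_al_some]
    have := Sc.bx_mono _ h (Sc.nb_mem_bx ha e)
    rw [nb_eq] at this
    simp [this]

lemma end_le {N : ℕ} (hN : 0 < N) (K : ℕ) (t : ℝ) : sI g δ (kal K (Sc.bx 0 (2 * N))) N K ω t ⊆
    sI g δ (Sc.al K (Sc.bx 0 (2 * N))) N K ω t :=
  lk_cmp one_le_jd (lk_ini _ _ _ _) subset_rfl (end_agree (by omega)) _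
    fun _ x hx => lk_le _ _ x (end_sub N hx)

lemma end_tj (hG : Good ω) (N K : ℕ) {u T : ℕ} (h : u ≤ T) :
    Sc.tj (md g δ) ⟨Sc.al K (Sc.bx 0 (2 * N)), Sc.bx 0 N⟩
      (Sc.ini (md g δ) (Sc.bx 0 N) {0} (init (Sc.bx 0 (2 * N)) ω))
      (wds (Sc.al K (Sc.bx 0 (2 * N))) ω T) u = sI g δ (Sc.al K (Sc.bx 0 (2 * N))) N K ω u := by
  rw [Sc.tj, wds_take h, lk_acs, ← hG.en_nat, hG.en_filter (al_subset K _), sI]
  exact congrArg Prod.snd (lk_filter ⟨Sc.al K _, _⟩ _ _)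

lemma end_lt {Ω : Type} [MeasurableSpace Ω] {μ : Measure Ω} {E : Set Ω} {b : ℝ≥0∞}
    {B : ℕ → Set Ω} (h : ∀ ω ∈ E, ∀ᶠ n in atTop, ω ∈ B n) (hb : b < μ E) :
    ∃ E' ⊆ E, b < μ E' ∧ ∀ᶠ n in atTop, E' ⊆ B n := by
  have h1 : Monotone fun n => E ∩ {ω | ∀ m ≥ n, ω ∈ B m} :=
    fun n n' hn ω hω => ⟨hω.1, fun m hm => hω.2 m (hn.trans hm)⟩
  have h2 : μ E ≤ μ (⋃ n, E ∩ {ω | ∀ m ≥ n, ω ∈ B m}) := measure_mono fun ω hω => by
    obtain ⟨n, hn⟩ := eventually_atTop.1 (h ω hω)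
    exact mem_iUnion.2 ⟨n, hω, hn⟩
  rw [h1.measure_iUnion] at h2
  obtain ⟨n, hn⟩ := lt_iSup_iff.1 (hb.trans_le h2)
  exact ⟨_, inter_subset_left, hn, eventually_atTop.2 ⟨n, fun m hm ω hω => hω.2 m hm⟩⟩

/-- Two limits at once: size of the box, then cutoff. -/
lemma end_lt2 {Ω : Type} [MeasurableSpace Ω] {μ : Measure Ω} {E : Set Ω} {b : ℝ≥0∞}
    {B : ℕ → ℕ → Set Ω} (h : ∀ ω ∈ E, ∀ᶠ n in atTop, ∀ᶠ k in atTop, ω ∈ B n k) (hb : b < μ E) :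
    ∀ᶠ n in atTop, ∀ᶠ k in atTop, b < μ (B n k) := by
  obtain ⟨E', -, h1, h2⟩ := end_lt (B := fun n => {ω | ∀ᶠ k in atTop, ω ∈ B n k}) h hb
  filter_upwards [h2] with n hn
  obtain ⟨E'', -, h3, h4⟩ := end_lt (B := B n) hn h1
  filter_upwards [h4] with k hk using h3.trans_le (measure_mono hk)

variable {F : Sc.Fr} {φ : ℝ} {ν : Measure ℕ} [IsProbabilityMeasure ν] (hF : F.Ok)
  (hm : F.toMd = md g δ) (h0 : g 0 = 0) (h1 : F.lo ≤ φ) (h2 : φ ≤ F.hi)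
  (hν : ∀ n, g (n + 1) * ν.real {n + 1} = φ * ν.real {n})
include hF hm h0 h1 hν

lemma end_key (Q : Finset (S d)) : ∀ᶠ K in atTop, ∀ (A : Finset (S d × Clk d)) (T : ℕ)
    (P : (S d → ℕ) → List (List (S d × Clk d)) → Prop),
    law d ν g δ {ω | Good ω ∧ P (init Q ω) (wds A ω T)} ≤ ENNReal.ofReal
      (2 * Sc.ex (Sc.mu F.toMd K φ Q) fun η => Sc.pr (Sc.wls F.toMd A T) (P η)) := by
  rw [hm]
  refine law_key ν h0 hF.1 (fun n => ?_) (hF.2.2.2.2.1.le.trans h1) hν Q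
  have := (hF.2.1 n).1
  rwa [hm] at this

include h2

theorem end_bdd (hO : Sc.S_OCC d F) : ∀ᵐ ω ∂law d ν g δ, Good ω ∧ Bdd ω := by
  obtain ⟨C, hC, hO⟩ := hO
  have key : ∀ (T : ℕ) (x : S d), law d ν g δ
      {ω | Good ω ∧ ∀ H : ℕ, ∃ v ∈ Icc (0 : ℝ) (T + 1 : ℕ), (H : ℕ∞) < eta ω v x} = 0 := by
    intro T x
    by_contra hne
    have h3 : Tendsto (fun H : ℕ => ENNReal.ofReal (2 * (C * (T + 1 : ℕ) * (1 / 2) ^ H))) atTop
        (𝓝 (ENNReal.ofReal (2 * (C * (T + 1 : ℕ) * 0)))) :=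
      ENNReal.tendsto_ofReal (((tendsto_pow_atTop_nhds_zero_of_lt_one (by norm_num)
        (by norm_num)).const_mul _).const_mul _)
    rw [mul_zero, mul_zero, ENNReal.ofReal_zero] at h3
    obtain ⟨H, hH⟩ := (h3.eventually (gt_mem_nhds (pos_iff_ne_zero.2 hne))).exists
    have h4 := end_lt2 (B := fun N K => {ω : Omega d | Good ω ∧ ∃ u w i,
      (wds (Sc.al K (Sc.bx 0 N)) ω (T + 1))[u]? = some w ∧ H ≤ Sc.mw (Sc.al K (Sc.bx 0 N))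
        (Sc.ms (Sc.al K (Sc.bx 0 N)) (init (Sc.bx 0 N) ω)
          ((wds (Sc.al K (Sc.bx 0 N)) ω (T + 1)).take u)) (w.take i) x}) ?_ hH
    · obtain ⟨N, hN⟩ := h4.exists
      obtain ⟨K, ⟨h5, h6⟩, h7⟩ := ((hN.and (end_key hF hm h0 h1 hν (Sc.bx 0 N))).and
        (Sc.kOk_eventually hF)).exists
      refine absurd (h5.trans_le (h6 _ (T + 1) fun η ws => ∃ u w i, ws[u]? = some w ∧
        H ≤ Sc.mw (Sc.al K (Sc.bx 0 N)) (Sc.ms (Sc.al K (Sc.bx 0 N)) η (ws.take u))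
          (w.take i) x)) (not_lt.2 (ENNReal.ofReal_le_ofReal ?_))
      exact mul_le_mul_of_nonneg_left (hO K φ _ x H (T + 1) ⟨h7, h1, h2⟩) zero_le_two
    · rintro ω ⟨hG, hω⟩
      obtain ⟨v, hv, h4⟩ := hω H
      obtain ⟨A, ζ, hζ, h5⟩ := lt_eta_iff.1 h4
      obtain ⟨N0, hN⟩ := end_box (insert x A)
      filter_upwards [eventually_ge_atTop N0] with N h6
      filter_upwards [eventually_ge_atTop (mass (Sc.bx 0 N) ω)] with K hK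
      have h7 := hζ.mono hG.noTie ((Finset.subset_insert _ _).trans (hN N h6))
        (hG.isEvol hK (hG.en_spec _)) hv.1 x
      have hx := hN N h6 (Finset.mem_insert_self _ _)
      rw [← lk_krun _ (hG.en_spec _ v).letters x hx] at h7
      have h8 := h7.trans (lk_le _ _ x hx)
      rw [← lk_mw_filter, ← hG.en_filter (al_subset K _)] at h8
      obtain ⟨n, h9⟩ := hG.en_take (F := Sc.al K (Sc.bx 0 N)) hv.2
      obtain ⟨u, w, i, h10, h11⟩ := lk_take (wds (Sc.al K (Sc.bx 0 N)) ω (T + 1))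
        (by simp [wds]) n
      refine ⟨hG, u, w, i, h10, ?_⟩
      rw [lk_ms, ← h11, ← h9]
      exact h5.le.trans h8
  have h3 : ∀ᵐ ω ∂law d ν g δ, ∀ (T : ℕ) (x : S d), ¬ (Good ω ∧
      ∀ H : ℕ, ∃ v ∈ Icc (0 : ℝ) (T + 1 : ℕ), (H : ℕ∞) < eta ω v x) := by
    simp only [ae_all_iff]
    exact fun T x => measure_eq_zero_iff_ae_notMem.1 (key T x)
  filter_upwards [ae_good ν g δ, h3] with ω hG h4
  refine ⟨hG, fun T y => ?_⟩
  obtain ⟨n, hn⟩ := exists_nat_gt T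
  have h5 := h4 n y
  push Not at h5
  obtain ⟨H, hH⟩ := h5 hG
  exact ⟨H, fun v hv => hH v ⟨hv.1, hv.2.trans (by push_cast; linarith)⟩⟩

theorem end_in (hO : Sc.S_OCC d F) (hφ : φ = F.lo) (hS : law d ν g δ {ω | Survives δ ω} ≠ 0) :
    Sc.S_TH d F := by
  have h3 : 0 < law d ν g δ {ω | (Good ω ∧ Bdd ω) ∧ Survives δ ω} := by
    refine (pos_iff_ne_zero.2 hS).trans_le (measure_mono_ae ?_)
    filter_upwards [end_bdd hF hm h0 h1 h2 hν hO] with ω h3 h4 using ⟨h3, h4⟩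
  obtain ⟨θ, h4, h5, h6⟩ := ENNReal.lt_iff_exists_real_btwn.1 h3
  refine ⟨θ / 2, half_pos (ENNReal.ofReal_pos.1 h5), fun T => ?_⟩
  have h7 := end_lt2 (B := fun N K => {ω : Omega d | Good ω ∧ (Sc.tj (md g δ)
    ⟨Sc.al K (Sc.bx 0 (2 * N)), Sc.bx 0 N⟩ (Sc.ini (md g δ) (Sc.bx 0 N) {0}
      (init (Sc.bx 0 (2 * N)) ω)) (wds (Sc.al K (Sc.bx 0 (2 * N))) ω T) T).Nonempty}) ?_ h6
  · filter_upwards [h7] with N hN
    filter_upwards [hN, end_key hF hm h0 h1 hν (Sc.bx 0 (2 * N))] with K h8 h9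
    have h10 := h8.trans_le (h9 _ T fun η ws => (Sc.tj (md g δ)
      ⟨Sc.al K (Sc.bx 0 (2 * N)), Sc.bx 0 N⟩ (Sc.ini (md g δ) (Sc.bx 0 N) {0} η) ws T).Nonempty)
    have h11 := (ENNReal.ofReal_lt_ofReal_iff_of_nonneg h4).1 h10
    rw [← hm, hφ] at h11
    exact (div_le_iff₀' two_pos).2 h11.le
  · rintro ω ⟨⟨hG, hB⟩, hω⟩
    obtain ⟨y, hy⟩ := hω T (Nat.cast_nonneg T)
    obtain ⟨N0, hN⟩ := end_cover (g := g) hG hB (Nat.cast_nonneg T) hy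
    filter_upwards [eventually_ge_atTop N0, eventually_gt_atTop 0] with N h7 h8
    filter_upwards [eventually_ge_atTop (mass (Sc.bx 0 (2 * N)) ω)] with K hK
    refine ⟨hG, y, ?_⟩
    rw [end_tj hG N K le_rfl]
    exact end_le h8 K _ (hN N h7 K hK)

end Pool.Agent.Lib.MP_dd0771_pr.Z
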