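import Pool.Agent.Lib.MP_dd0771_pr.Z.Evol

/-! Increasing enumeration of the rings of a finite family of clocks. -/

open MeasureTheory ProbabilityTheory Set Filter Topology
open scoped NNReal ENNReal

namespace Pool.Agent.Lib.MP_dd0771_pr.Z

/-- Index of a cell. -/
abbrev Idx (d : ℕ) : Type := S d × Option (Clk d × ℕ)
/-- Labels of rings: site and clock, window, number. -/
abbrev Lab (d : ℕ) : Type := (S d × Clk d) × ℕ × ℕ

variable {d : ℕ}

/-- The cell of a label. -/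
def idx (l : Lab d) : Idx d := (l.1.1, some (l.1.2, l.2.1))
/-- The time of a label. -/
def tm (ω : Omega d) (l : Lab d) : ℝ := l.2.1 + (ω (idx l)).2 l.2.2
/-- The label is a ring of a clock of the family `F`. -/
def Rel0 (F : Finset (S d × Clk d)) (ω : Omega d) (l : Lab d) : Prop :=
  l.1 ∈ F ∧ l.2.2 < (ω (idx l)).1
/-- The label is a ring of a clock of `F` up to time `t`. -/
def Rel (F : Finset (S d × Clk d)) (ω : Omega d) (t : ℝ) (l : Lab d) : Prop :=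
  Rel0 F ω l ∧ (l.2.1 : ℝ) < t ∧ tm ω l ≤ t
/-- Increasing enumeration of the rings of `F` up to time `t`. -/
def Enum (F : Finset (S d × Clk d)) (ω : Omega d) (t : ℝ) (L : List (Lab d)) : Prop :=
  L.Pairwise (fun a b => tm ω a < tm ω b) ∧ ∀ l, l ∈ L ↔ Rel F ω t l
/-- Increasing enumeration of the rings of `F` in window `n`. -/
def EnumW (F : Finset (S d × Clk d)) (ω : Omega d) (n : ℕ) (L : List (Lab d)) : Prop :=
  L.Pairwise (fun a b => tm ω a < tm ω b) ∧ ∀ l, l ∈ L ↔ Rel0 F ω l ∧ l.2.1 = n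
/-- Positions are in `(0,1]` and the ring times are distinct. -/
def Good (ω : Omega d) : Prop := (∀ i j, (ω i).2 j ∈ Ioc (0 : ℝ) 1) ∧ Function.Injective (tm ω)

variable {ω : Omega d} {F : Finset (S d × Clk d)}

lemma mem_pts_iff {x : S d} {c : Clk d} {t : ℝ} : t ∈ pts ω x c ↔
    ∃ n j, j < (ω (idx ((x, c), n, j))).1 ∧ t = tm ω ((x, c), n, j) := Iff.rfl

lemma tm_mem_pts {l : Lab d} (h : Rel0 F ω l) : tm ω l ∈ pts ω l.1.1 l.1.2 :=
  ⟨l.2.1, l.2.2, h.2, rfl⟩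

lemma Good.noTie (h : Good ω) : NoTie ω := by
  intro x c x' c' t h1 h2
  obtain ⟨n, j, -, h1⟩ := mem_pts_iff.1 h1
  obtain ⟨n', j', -, h2⟩ := mem_pts_iff.1 h2
  have := h.2 (h1.symm.trans h2)
  simp only [Prod.mk.injEq] at this
  exact this.1

lemma Good.lt_tm (h : Good ω) (l : Lab d) : (l.2.1 : ℝ) < tm ω l := by
  have := (h.1 (idx l) l.2.2).1
  simp only [tm]; linarith

lemma Good.tm_le (h : Good ω) (l : Lab d) : tm ω l ≤ l.2.1 + 1 := by
  have := (h.1 (idx l) l.2.2).2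
  simp only [tm]; linarith

lemma Good.tm_pos (h : Good ω) (l : Lab d) : 0 < tm ω l :=
  (Nat.cast_nonneg _).trans_lt (h.lt_tm l)

lemma Good.rel_iff (h : Good ω) {t : ℝ} {l : Lab d} : Rel F ω t l ↔ Rel0 F ω l ∧ tm ω l ≤ t :=
  ⟨fun h1 => ⟨h1.1, h1.2.2⟩, fun h1 => ⟨h1.1, (h.lt_tm l).trans_le h1.2, h1.2⟩⟩

lemma rel_finite (F : Finset (S d × Clk d)) (ω : Omega d) (t : ℝ) : {l | Rel F ω t l}.Finite := by
  have h1 : (⋃ q ∈ F ×ˢ Finset.range ⌈t⌉₊, (fun j : ℕ => ((q.1, q.2, j) : Lab d)) ''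
      {j | j < (ω (q.1.1, some (q.1.2, q.2))).1}).Finite :=
    Set.Finite.biUnion (Finset.finite_toSet _) fun n _ => (Set.finite_lt_nat _).image _
  refine h1.subset ?_
  rintro ⟨a, n, j⟩ ⟨⟨h2, h4⟩, h5, -⟩
  simp only [mem_iUnion]
  refine ⟨(a, n), ?_, j, h4, rfl⟩
  simp only [Finset.mem_product, Finset.mem_range]
  exact ⟨h2, Nat.lt_ceil.2 h5⟩

lemma Good.pts_finite (h : Good ω) (x : S d) (c : Clk d) (t : ℝ) :
    (pts ω x c ∩ Iic t).Finite := by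
  refine ((rel_finite {(x, c)} ω t).image (tm ω)).subset ?_
  rintro u ⟨h1, h2⟩
  obtain ⟨n, j, h3, rfl⟩ := mem_pts_iff.1 h1
  exact ⟨_, h.rel_iff.2 ⟨⟨Finset.mem_singleton_self _, h3⟩, h2⟩, rfl⟩

lemma Good.rings_finite (h : Good ω) (x : S d) (H : ℕ) (t : ℝ) : (rings ω x H ∩ Iic t).Finite := by
  have h1 : (⋃ k ∈ Finset.range H, ⋃ e : Dir d, pts ω x (some (e, k)) ∩ Iic t).Finite :=
    Set.Finite.biUnion (Finset.finite_toSet _) fun k _ =>
      Set.finite_iUnion fun e => h.pts_finite x _ t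
  refine h1.subset ?_
  rintro u ⟨⟨k, hk, e, h2⟩, h3⟩
  simp only [mem_iUnion]
  exact ⟨k, Finset.mem_range.2 hk, e, h2, h3⟩

lemma Good.sort (h : Good ω) (s : Finset (Lab d)) :
    ∃ L : List (Lab d), L.Pairwise (fun a b => tm ω a < tm ω b) ∧ ∀ l, l ∈ L ↔ l ∈ s := by
  classical
  induction s using Finset.induction_on_max_value (tm ω) with
  | empty => exact ⟨[], by simp⟩
  | insert a s ha hmax ih =>
    obtain ⟨L, h1, h2⟩ := ih
    refine ⟨L ++ [a], ?_, fun l => by simp [h2, or_comm]⟩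
    rw [List.pairwise_append]
    refine ⟨h1, by simp, fun b hb c hc => ?_⟩
    rw [List.mem_singleton.1 hc]
    have hb' := (h2 b).1 hb
    exact lt_of_le_of_ne (hmax b hb') fun h3 => ha (h.2 h3 ▸ hb')

lemma Good.exists_enum (h : Good ω) (F : Finset (S d × Clk d)) (t : ℝ) : ∃ L, Enum F ω t L := by
  obtain ⟨L, h1, h2⟩ := h.sort (rel_finite F ω t).toFinset
  exact ⟨L, h1, fun l => by rw [h2]; simp⟩

lemma Good.exists_enumW (h : Good ω) (F : Finset (S d × Clk d)) (n : ℕ) : ∃ L, EnumW F ω n L := by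
  have h0 : {l | Rel0 F ω l ∧ l.2.1 = n}.Finite := by
    refine (rel_finite F ω (n + 1)).subset fun l hl => h.rel_iff.2 ⟨hl.1, ?_⟩
    have := h.tm_le l
    rwa [hl.2] at this
  obtain ⟨L, h1, h2⟩ := h.sort h0.toFinset
  exact ⟨L, h1, fun l => by rw [h2]; simp⟩

lemma list_unique {L L' : List (Lab d)} (h1 : L.Pairwise (fun a b => tm ω a < tm ω b))
    (h2 : L'.Pairwise (fun a b => tm ω a < tm ω b)) (h3 : ∀ l, l ∈ L ↔ l ∈ L') : L = L' := by
  have n1 : L.Nodup := h1.imp fun h h' => by rw [h'] at h; exact lt_irrefl _ h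
  have n2 : L'.Nodup := h2.imp fun h h' => by rw [h'] at h; exact lt_irrefl _ h
  exact ((List.perm_ext_iff_of_nodup n1 n2).2 h3).eq_of_pairwise
    (fun a b _ _ h4 h5 => absurd h4 (not_lt.2 h5.le)) h1 h2

lemma Enum.unique {t : ℝ} {L L' : List (Lab d)} (h : Enum F ω t L) (h' : Enum F ω t L') : L = L' :=
  list_unique h.1 h'.1 fun l => by rw [h.2, h'.2]

lemma Enum.zero {L : List (Lab d)} (h : Enum F ω 0 L) : L = [] := by
  rw [List.eq_nil_iff_forall_not_mem]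
  intro l hl
  exact absurd (h.2 l |>.1 hl).2.1 (not_lt.2 (Nat.cast_nonneg _))

lemma Enum.succ (hG : Good ω) {n : ℕ} {L W : List (Lab d)} (h : Enum F ω n L)
    (hW : EnumW F ω n W) : Enum F ω ((n + 1 : ℕ) : ℝ) (L ++ W) := by
  refine ⟨List.pairwise_append.2 ⟨h.1, hW.1, fun a ha b hb => ?_⟩, fun l => ?_⟩
  · have h1 := ((h.2 a).1 ha).2.2
    have h2 := hG.lt_tm b
    rw [((hW.2 b).1 hb).2] at h2
    exact h1.trans_lt h2
  · rw [List.mem_append, h.2, hW.2]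
    have h1 := hG.tm_le l
    constructor
    · rintro (h2 | h2)
      · exact hG.rel_iff.2 ⟨h2.1, h2.2.2.trans (by push_cast; linarith)⟩
      · exact hG.rel_iff.2 ⟨h2.1, by rw [h2.2] at h1; exact_mod_cast h1⟩
    · intro h2
      have h3 : l.2.1 < n + 1 := by exact_mod_cast h2.2.1
      rcases (Nat.lt_succ_iff.1 h3).eq_or_lt with h4 | h4
      · exact Or.inr ⟨h2.1, h4⟩
      · refine Or.inl (hG.rel_iff.2 ⟨h2.1, h1.trans ?_⟩)
        exact_mod_cast h4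

/-- The windows before `T` enumerate the rings up to time `T`. -/
lemma Good.enum_flat (hG : Good ω) {W : ℕ → List (Lab d)} (hW : ∀ n, EnumW F ω n (W n)) (T : ℕ) :
    Enum F ω T ((List.range T).map W).flatten := by
  induction T with
  | zero => exact ⟨by simp, fun l => by simp [Rel]⟩
  | succ T ih =>
    have := ih.succ hG (hW T)
    simpa [List.range_succ] using this

lemma Enum.isPre (hG : Good ω) {s t : ℝ} (hst : s ≤ t) {L L' : List (Lab d)} (h : Enum F ω s L)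
    (h' : Enum F ω t L') : ∃ M, L' = L ++ M := by
  classical
  refine ⟨L'.filter fun l => s < tm ω l, list_unique (ω := ω) h'.1 ?_ fun l => ?_⟩
  · refine List.pairwise_append.2 ⟨h.1, h'.1.filter _, fun a ha b hb => ?_⟩
    have h1 : s < tm ω b := by simpa using (List.mem_filter.1 hb).2
    exact ((h.2 a).1 ha).2.2.trans_lt h1
  · rw [List.mem_append, List.mem_filter, h.2, h'.2, hG.rel_iff, hG.rel_iff]
    simp only [decide_eq_true_eq]
    constructor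
    · intro h1
      by_cases h2 : tm ω l ≤ s
      · exact Or.inl ⟨h1.1, h2⟩
      · exact Or.inr ⟨h1, not_le.1 h2⟩
    · rintro (h1 | h1)
      · exact ⟨h1.1, h1.2.trans hst⟩
      · exact h1.1

lemma EnumW.filter {G : Finset (S d × Clk d)} (hG : G ⊆ F) {n : ℕ} {L : List (Lab d)}
    (h : EnumW F ω n L) : EnumW G ω n (L.filter fun l => l.1 ∈ G) := by
  refine ⟨h.1.filter _, fun l => ?_⟩
  rw [List.mem_filter, h.2]
  simp only [decide_eq_true_eq, Rel0]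
  exact ⟨fun h1 => ⟨⟨h1.2, h1.1.1.2⟩, h1.1.2⟩, fun h1 => ⟨⟨⟨hG h1.1.1, h1.1.2⟩, h1.2⟩, h1.1.1⟩⟩

section Time

variable {L : ℝ → List (Lab d)} (h : Good ω) (hL : ∀ t, Enum F ω t (L t))
include h hL

lemma Good.enum_right (t : ℝ) :
    ∀ᶠ u in 𝓝[>] t, L u = L t ∧ ∀ l, Rel0 F ω l → tm ω l ∉ Ioc t u := by
  have hf := (rel_finite F ω (t + 1)).image (tm ω)
  filter_upwards [ev_right_notMem hf t, Ioo_mem_nhdsGT (lt_add_one t)] with u h1 h2
  have h3 : ∀ l, Rel0 F ω l → tm ω l ∉ Ioc t u := fun l h3 h4 =>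
    h1 _ h4 ⟨l, h.rel_iff.2 ⟨h3, h4.2.trans h2.2.le⟩, rfl⟩
  refine ⟨list_unique (hL u).1 (hL t).1 fun l => ?_, h3⟩
  rw [(hL u).2, (hL t).2, h.rel_iff, h.rel_iff]
  refine ⟨fun h4 => ⟨h4.1, ?_⟩, fun h4 => ⟨h4.1, h4.2.trans h2.1.le⟩⟩
  by_contra h5
  exact h3 l h4.1 ⟨not_le.1 h5, h4.2⟩

lemma Good.enum_left (t : ℝ) : ∃ L0, (∀ᶠ u in 𝓝[<] t, L u = L0 ∧
      ∀ l, Rel0 F ω l → tm ω l ∉ Ico u t) ∧
    ((L t = L0 ∧ ∀ l, Rel0 F ω l → tm ω l ≠ t) ∨
      ∃ l, Rel0 F ω l ∧ tm ω l = t ∧ L t = L0 ++ [l]) := by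
  have hf := (rel_finite F ω t).image (tm ω)
  have h1 : ∀ᶠ u in 𝓝[<] t, (∀ l, Rel F ω u l ↔ Rel0 F ω l ∧ tm ω l < t) ∧
      ∀ l, Rel0 F ω l → tm ω l ∉ Ico u t := by
    filter_upwards [ev_left_notMem hf t, self_mem_nhdsWithin] with u h1 h2
    have h3 : ∀ l, Rel0 F ω l → tm ω l ∉ Ico u t := fun l h3 h4 =>
      h1 _ h4 ⟨l, h.rel_iff.2 ⟨h3, h4.2.le⟩, rfl⟩
    refine ⟨fun l => ?_, h3⟩
    rw [h.rel_iff]
    refine ⟨fun h4 => ⟨h4.1, h4.2.trans_lt h2⟩, fun h4 => ⟨h4.1, ?_⟩⟩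
    by_contra h5
    exact h3 l h4.1 ⟨(not_le.1 h5).le, h4.2⟩
  obtain ⟨u0, hu0, -⟩ := h1.exists
  refine ⟨L u0, ?_, ?_⟩
  · filter_upwards [h1] with u hu
    exact ⟨list_unique (hL u).1 (hL u0).1 fun l => by rw [(hL u).2, (hL u0).2, hu.1, hu0], hu.2⟩
  by_cases h2 : ∃ l, Rel0 F ω l ∧ tm ω l = t
  · obtain ⟨l0, h2, h3⟩ := h2
    refine Or.inr ⟨l0, h2, h3, list_unique (ω := ω) (hL t).1 ?_ fun l => ?_⟩
    · rw [List.pairwise_append]
      refine ⟨(hL u0).1, by simp, fun b hb c hc => ?_⟩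
      rw [List.mem_singleton.1 hc, h3]
      exact ((hu0 b).1 (((hL u0).2 b).1 hb)).2
    · rw [List.mem_append, List.mem_singleton, (hL t).2, (hL u0).2, hu0, h.rel_iff]
      constructor
      · intro h5
        rcases h5.2.eq_or_lt with h6 | h6
        · exact Or.inr (h.2 (h6.trans h3.symm))
        · exact Or.inl ⟨h5.1, h6⟩
      · rintro (h5 | h5)
        · exact ⟨h5.1, h5.2.le⟩
        · rw [h5]; exact ⟨h2, h3.le⟩
  · refine Or.inl ⟨list_unique (hL t).1 (hL u0).1 fun l => ?_, fun l h3 h4 => h2 ⟨l, h3, h4⟩⟩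
    rw [(hL t).2, (hL u0).2, hu0, h.rel_iff]
    exact ⟨fun h3 => ⟨h3.1, lt_of_le_of_ne h3.2 fun h4 => h2 ⟨l, h3.1, h4⟩⟩,
      fun h3 => ⟨h3.1, h3.2.le⟩⟩

end Time

end Pool.Agent.Lib.MP_dd0771_pr.Z
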