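import Pool.Agent.Lib.MP_dd0771_pr.Z.Defs
import Pool.Agent.Lib.MP_dd0771_pr.Sym

/-! Finite killed systems: monotonicity, uniqueness, mass bound, local constancy. -/

open MeasureTheory ProbabilityTheory Set Filter Topology
open scoped NNReal ENNReal

namespace Pool.Agent.Lib.MP_dd0771_pr.Z

variable {d : ℕ}

/-- No two different clocks ring at the same time. -/
def NoTie (ω : Omega d) : Prop :=
  ∀ x c x' c' t, t ∈ pts ω x c → t ∈ pts ω x' c' → x = x' ∧ c = c'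

variable {ω : Omega d} {A B : Finset (S d)} {ζ ζ' : ℝ → S d → ℕ}

lemma NoTie.jmp (hT : NoTie ω) {x x' : S d} {k k' : ℕ} {e e' : Dir d} {t : ℝ}
    (h : t ∈ pts ω x (some (e, k))) (h' : t ∈ pts ω x' (some (e', k'))) :
    x = x' ∧ k = k' ∧ e = e' := by
  have := hT _ _ _ _ _ h h'
  simp only [Option.some.injEq, Prod.mk.injEq] at this
  tauto

lemma nb_ne (x : S d) (e : Dir d) : nb x e ≠ x := by
  intro h
  have := congrFun h e.1
  simp only [nb, Function.update_self] at this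
  split_ifs at this <;> omega

lemma nb_nb (x : S d) (e : Dir d) : nb (nb x e) (e.1, !e.2) = x := by
  obtain ⟨i, b⟩ := e
  cases b <;> simp [nb]

/-- A site and its neighbours. -/
def nbs (x : S d) : Finset (S d) := insert x (Finset.univ.image (nb x))

lemma self_mem_nbs (x : S d) : x ∈ nbs x := Finset.mem_insert_self _ _

lemma mem_nbs {x y : S d} {e : Dir d} (h : x = nb y e) : y ∈ nbs x :=
  Finset.mem_insert_of_mem (Finset.mem_image.2 ⟨(e.1, !e.2), Finset.mem_univ _, by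
    rw [h, nb_nb]⟩)

lemma Jump.eq (hT : NoTie ω) {t : ℝ} {x y x' y' : S d} (h : Jump ω t x y) (h' : Jump ω t x' y') :
    x = x' := by
  obtain ⟨k, e, h1, -, -⟩ := h
  obtain ⟨k', e', h1', -, -⟩ := h'
  exact (hT.jmp h1 h1').1

lemma IsEvol.ind (h : IsEvol A ω ζ) {P : ℝ → (S d → ℕ) → Prop} {s b : ℝ} (hs : 0 ≤ s)
    (h0 : P s (ζ s)) (hr : ∀ t ∈ Ico s b, ∀ ξ, P t ξ → ∀ᶠ u in 𝓝[>] t, P u ξ)
    (hl : ∀ t ∈ Ioc s b, ∀ ξ, (∀ᶠ u in 𝓝[<] t, P u ξ ∧ ζ u = ξ ∧ u ∈ Ico s t) →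
      Step A ω t ξ (ζ t) → P t (ζ t)) : ∀ t ∈ Icc s b, P t (ζ t) := by
  refine real_ind (P := fun t => P t (ζ t)) h0 (fun t ht hP => ?_) (fun t ht hP => ?_)
  · filter_upwards [hr t ht _ hP, h.2.1 t (hs.trans ht.1)] with u h1 h2
    rw [h2]; exact h1
  · obtain ⟨ξ, h1, h2⟩ := h.2.2 t (hs.trans_lt ht.1)
    refine hl t ht ξ ?_ h2
    filter_upwards [hP, h1] with u h3 h4
    exact ⟨h4 ▸ h3.1, h4, h3.2⟩

lemma IsEvol.inv (h : IsEvol A ω ζ) {P : (S d → ℕ) → Prop} {s b : ℝ} (hs : 0 ≤ s)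
    (h0 : P (ζ s))
    (hl : ∀ t ∈ Ioc s b, ∀ ξ, P ξ → (∃ u ∈ Ico s t, ζ u = ξ) → ∀ x k e,
      t ∈ pts ω x (some (e, k)) → k < ξ x → P (move A ξ x (nb x e))) :
    ∀ t ∈ Icc s b, P (ζ t) := by
  refine h.ind (P := fun _ ξ => P ξ) hs h0 (fun t _ ξ hP => Eventually.of_forall fun _ => hP) ?_
  intro t ht ξ h1 h2
  obtain ⟨u, h3, h4, h5⟩ := h1.exists
  rcases h2 with ⟨-, h2⟩ | ⟨x, k, e, h6, h7, h2⟩
  · rw [h2]; exact h3
  · rw [h2]; exact hl t ht ξ h3 ⟨u, h5, h4⟩ x k e h6 h7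

lemma IsEvol.supp (h : IsEvol A ω ζ) {t : ℝ} (ht : 0 ≤ t) : ∀ x, x ∉ A → ζ t x = 0 := by
  refine h.inv (P := fun ξ => ∀ x, x ∉ A → ξ x = 0) le_rfl (fun x hx => by simp [h.1, hx]) ?_
    t ⟨ht, le_rfl⟩
  intro t _ ξ hP _ x k e _ _ z hz
  have : ¬ (z = nb x e ∧ nb x e ∈ A) := fun h => hz (h.1 ▸ h.2)
  simp [move, hP z hz, this]

lemma IsEvol.mono (hT : NoTie ω) (hAB : A ⊆ B) (h : IsEvol A ω ζ) (h' : IsEvol B ω ζ') {t : ℝ}
    (ht : 0 ≤ t) : ∀ x, ζ t x ≤ ζ' t x := by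
  refine real_ind (P := fun t => ∀ x, ζ t x ≤ ζ' t x) (a := 0) (b := t) ?_ ?_ ?_ t ⟨ht, le_rfl⟩
  · intro x
    rw [h.1, h'.1]
    by_cases hx : x ∈ A
    · simp [hx, hAB hx]
    · simp [hx]
  · intro s hs hP
    filter_upwards [h.2.1 s hs.1, h'.2.1 s hs.1] with u h1 h2
    rw [h1, h2]; exact hP
  · intro s hs hP
    obtain ⟨ξ, h1, h2⟩ := h.2.2 s hs.1
    obtain ⟨ξ', h1', h2'⟩ := h'.2.2 s hs.1
    obtain ⟨u, ⟨h3, -⟩, h4, h5⟩ := (hP.and (h1.and h1')).exists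
    rw [h4, h5] at h3
    intro z
    have hz := h3 z
    rcases h2 with ⟨h6, h2⟩ | ⟨x, k, e, h6, h7, h2⟩
    · rcases h2' with ⟨-, h2'⟩ | ⟨x', k', e', h6', h7', h2'⟩
      · rw [h2, h2']; exact hz
      · rw [h2, h2']
        have := h6 x' k' e' h6'
        simp only [move]
        by_cases h8 : z = x'
        · subst h8; simp only [if_true]; omega
        · simp only [h8, if_false]; omega
    · rcases h2' with ⟨h6', -⟩ | ⟨x', k', e', h6', h7', h2'⟩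
      · have := h6' x k e h6
        have := h3 x
        omega
      · obtain ⟨rfl, rfl, rfl⟩ := hT.jmp h6 h6'
        rw [h2, h2']
        simp only [move]
        by_cases h8 : z = nb x e ∧ nb x e ∈ A
        · have h9 : z = nb x e ∧ nb x e ∈ B := ⟨h8.1, hAB h8.2⟩
          rw [if_pos h8, if_pos h9]; omega
        · rw [if_neg h8]; omega

lemma IsEvol.unique (hT : NoTie ω) (h : IsEvol A ω ζ) (h' : IsEvol A ω ζ') {t : ℝ}
    (ht : 0 ≤ t) : ζ t = ζ' t :=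
  funext fun x => le_antisymm (h.mono hT subset_rfl h' ht x) (h'.mono hT subset_rfl h ht x)

/-- Initial mass in `A`. -/
def mass (A : Finset (S d)) (ω : Omega d) : ℕ := ∑ x ∈ A, (ω (x, none)).1

lemma sum_move_le {ξ : S d → ℕ} {x : S d} (hx : x ∈ A) (h : 0 < ξ x) (y : S d) :
    ∑ z ∈ A, move A ξ x y z ≤ ∑ z ∈ A, ξ z := by
  simp only [move, Finset.sum_add_distrib]
  have h1 : ∑ z ∈ A, (if z = y ∧ y ∈ A then 1 else 0) ≤ 1 := by
    calc ∑ z ∈ A, (if z = y ∧ y ∈ A then 1 else 0) ≤ ∑ z ∈ A, (if z = y then 1 else 0) := by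
          refine Finset.sum_le_sum fun z _ => ?_
          by_cases h2 : z = y
          · simp only [h2, true_and, if_true]; split_ifs <;> omega
          · simp [h2]
      _ ≤ 1 := by rw [Finset.sum_ite_eq']; split_ifs <;> omega
  have h2 : ∑ z ∈ A, (ξ z - if z = x then 1 else 0) + 1 = ∑ z ∈ A, ξ z := by
    have h3 : ∑ z ∈ A, (if z = x then 1 else 0) = 1 := by rw [Finset.sum_ite_eq']; simp [hx]
    rw [← h3, ← Finset.sum_add_distrib]
    refine Finset.sum_congr rfl fun z _ => ?_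
    by_cases h4 : z = x
    · subst h4; simp only [if_true]; omega
    · simp [h4]
  omega

/-- Ring times at `y` of the jump clocks of level below `H`. -/
def rings (ω : Omega d) (y : S d) (H : ℕ) : Set ℝ :=
  {t | ∃ k < H, ∃ e, t ∈ pts ω y (some (e, k))}

lemma IsEvol.const (h : IsEvol A ω ζ) {s b : ℝ} (hs : 0 ≤ s) {x : S d} {H : ℕ}
    (hH : ∀ v ∈ Ico s b, ∀ y ∈ nbs x, ζ v y ≤ H)
    (hr : ∀ v ∈ Ioc s b, ∀ y ∈ nbs x, v ∉ rings ω y H) :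
    ∀ v ∈ Icc s b, ζ v x = ζ s x := by
  refine h.inv (P := fun ξ => ξ x = ζ s x) hs rfl ?_
  intro t ht ξ hP ⟨u, hu, hu'⟩ y k e h1 hk
  have h2 : y ∉ nbs x := fun h2 => by
    have := hH u ⟨hu.1, hu.2.trans_le ht.2⟩ y h2
    rw [hu'] at this
    exact hr t ht y h2 ⟨k, by omega, e, h1⟩
  have h3 : x ≠ y := fun h3 => h2 (h3 ▸ self_mem_nbs x)
  have h4 : x ≠ nb y e := fun h4 => h2 (mem_nbs h4)
  simp [move, h3, h4, hP]

lemma IsEvol.le_eta (h : IsEvol A ω ζ) (t : ℝ) (x : S d) : (ζ t x : ℕ∞) ≤ eta ω t x :=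
  le_iSup_of_le A (le_iSup₂_of_le (f := fun ζ (_ : IsEvol A ω ζ) => (ζ t x : ℕ∞)) ζ h le_rfl)

lemma eta_congr {s t : ℝ} {x : S d} (h : ∀ A ζ, IsEvol A ω ζ → ζ s x = ζ t x) :
    eta ω s x = eta ω t x :=
  iSup_congr fun A => iSup_congr fun ζ => iSup_congr fun hζ => by rw [h A ζ hζ]

lemma lt_eta_iff {t : ℝ} {x : S d} {k : ℕ} :
    (k : ℕ∞) < eta ω t x ↔ ∃ A ζ, IsEvol A ω ζ ∧ k < ζ t x := by
  simp only [eta, lt_iSup_iff, Nat.cast_lt, exists_prop]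

lemma eta_le_iff {t : ℝ} {x : S d} {k : ℕ} :
    eta ω t x ≤ k ↔ ∀ A ζ, IsEvol A ω ζ → ζ t x ≤ k := by
  simp only [eta, iSup_le_iff, Nat.cast_le]

end Pool.Agent.Lib.MP_dd0771_pr.Z
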