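import Mathlib

/-! The invariant one-site law: order of fugacities and comparison with the truncated law. -/

open MeasureTheory Set Filter Topology
open scoped NNReal ENNReal

namespace Pool.Agent.Lib.MP_dd0771_pr.Z

variable {g : ℕ → ℝ} {Γm φ φ' : ℝ} {ν ν' : Measure ℕ}

lemma fug_lin (h0 : g 0 = 0) (hg : ∀ n, Γm ≤ g (n + 1) - g n) (n : ℕ) : n * Γm ≤ g n := by
  induction n with
  | zero => simp [h0]
  | succ n ih => have := hg n; push_cast; linarith

lemma fug_pos (h0 : g 0 = 0) (hΓ : 0 < Γm) (hg : ∀ n, Γm ≤ g (n + 1) - g n) {n : ℕ} (hn : 0 < n) :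
    0 < g n := lt_of_lt_of_le (by positivity) (fug_lin h0 hg n)

lemma fug_mono (hΓ : 0 < Γm) (hg : ∀ n, Γm ≤ g (n + 1) - g n) : Monotone g :=
  monotone_nat_of_le_succ fun n => by have := hg n; linarith

lemma fug_form (h0 : g 0 = 0) (hΓ : 0 < Γm) (hg : ∀ n, Γm ≤ g (n + 1) - g n)
    (hν : ∀ n, g (n + 1) * ν.real {n + 1} = φ * ν.real {n}) (n : ℕ) :
    ν.real {n} = ν.real {0} * ∏ i ∈ Finset.range n, φ / g (i + 1) := by
  induction n with
  | zero => simp
  | succ n ih =>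
    have h1 := fug_pos h0 hΓ hg n.succ_pos
    rw [Finset.prod_range_succ, ← mul_assoc, ← ih, ← mul_div_assoc, eq_div_iff h1.ne', mul_comm,
      hν, mul_comm]

lemma fug_hasSum [IsProbabilityMeasure ν] : HasSum (fun n => ν.real {n}) 1 := by
  have h1 : ∑' n, ν {n} = 1 := by
    rw [← measure_univ (μ := ν), ← Measure.tsum_indicator_apply_singleton _ _ MeasurableSet.univ]
    simp
  have h2 := ENNReal.hasSum_toReal (f := fun n => ν {n}) (by rw [h1]; simp)
  rw [← ENNReal.tsum_toReal_eq (fun n => measure_ne_top _ _), h1] at h2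
  exact h2

/-- A smaller mean forces a smaller fugacity. -/
theorem fug_lt [IsProbabilityMeasure ν] [IsProbabilityMeasure ν'] (h0 : g 0 = 0) (hΓ : 0 < Γm)
    (hg : ∀ n, Γm ≤ g (n + 1) - g n) (hφ : 0 ≤ φ)
    (hν : ∀ n, g (n + 1) * ν.real {n + 1} = φ * ν.real {n})
    (hν' : ∀ n, g (n + 1) * ν'.real {n + 1} = φ' * ν'.real {n})
    (hlt : ∫⁻ n, (n : ℝ≥0∞) ∂ν' < ∫⁻ n, (n : ℝ≥0∞) ∂ν) : φ' < φ := by
  by_contra hc
  have hle : φ ≤ φ' := not_lt.1 hc
  have h1 : ∀ m k : ℕ, ν.real {m + k} * ν'.real {m} ≤ ν'.real {m + k} * ν.real {m} := by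
    intro m k
    induction k with
    | zero => exact (mul_comm _ _).le
    | succ k ih =>
      have h2 := fug_pos h0 hΓ hg (m + k).succ_pos
      refine le_of_mul_le_mul_left ?_ h2
      rw [← mul_assoc, ← mul_assoc, ← add_assoc, hν, hν', mul_assoc, mul_assoc]
      exact mul_le_mul hle ih (by positivity) (hφ.trans hle)
  have h2 : ∀ m n : ℕ, m ≤ n → ν {n} * ν' {m} ≤ ν' {n} * ν {m} := by
    intro m n h
    obtain ⟨k, rfl⟩ := Nat.exists_eq_add_of_le h
    have h3 := h1 m k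
    simp only [Measure.real, ← ENNReal.toReal_mul] at h3
    exact (ENNReal.toReal_le_toReal (by finiteness) (by finiteness)).1 h3
  have h3 : ∀ k : ℕ, ν (Ioi k) ≤ ν' (Ioi k) := by
    intro k
    have h4 : ν (Ioi k) * ν' (Ioi k)ᶜ ≤ ν' (Ioi k) * ν (Ioi k)ᶜ := by
      have h5 : ∀ (m : Measure ℕ) (s : Set ℕ), m s = ∑' n, s.indicator (fun n => m {n}) n :=
        fun m s => (Measure.tsum_indicator_apply_singleton _ _ MeasurableSet.of_discrete).symm
      rw [h5 ν (Ioi k), h5 ν' (Ioi k), h5 ν (Ioi k)ᶜ, h5 ν' (Ioi k)ᶜ]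
      simp only [← ENNReal.tsum_mul_right]
      refine ENNReal.tsum_le_tsum fun n => ?_
      simp only [← ENNReal.tsum_mul_left]
      refine ENNReal.tsum_le_tsum fun m => ?_
      by_cases hn : n ∈ Ioi k
      · by_cases hm : m ∈ (Ioi k)ᶜ
        · simp only [indicator_of_mem hn, indicator_of_mem hm]
          exact h2 m n ((not_lt.1 (show ¬ k < m from hm)).trans (le_of_lt hn))
        · simp only [indicator_of_notMem hm, mul_zero, le_refl]
      · simp only [indicator_of_notMem hn, zero_mul, le_refl]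
    calc ν (Ioi k) = ν (Ioi k) * ν' (Ioi k) + ν (Ioi k) * ν' (Ioi k)ᶜ := by
          rw [← mul_add, prob_add_prob_compl MeasurableSet.of_discrete, mul_one]
      _ ≤ ν' (Ioi k) * ν (Ioi k) + ν' (Ioi k) * ν (Ioi k)ᶜ := add_le_add (mul_comm _ _).le h4
      _ = ν' (Ioi k) := by rw [← mul_add, prob_add_prob_compl MeasurableSet.of_discrete, mul_one]
  have h4 : ∀ m : Measure ℕ, ∫⁻ n, (n : ℝ≥0∞) ∂m = ∑' k : ℕ, m (Ioi k) := by
    intro m
    have h5 : ∀ n : ℕ, (n : ℝ≥0∞) = ∑' k : ℕ, (Ioi k).indicator (fun _ => (1 : ℝ≥0∞)) n := by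
      intro n
      rw [tsum_eq_sum (s := Finset.range n) fun k hk => indicator_of_notMem (by simpa using hk) _,
        Finset.sum_congr rfl fun k hk => indicator_of_mem (by simpa using hk) _]
      simp
    rw [lintegral_congr h5, lintegral_tsum fun k => Measurable.of_discrete.aemeasurable]
    simp
  rw [h4, h4] at hlt
  exact absurd (ENNReal.tsum_le_tsum h3) (not_le.2 hlt)

/-- Weights with the rate frozen above level `K`. -/
noncomputable def fw (g : ℕ → ℝ) (φ : ℝ) (K n : ℕ) : ℝ :=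
  ∏ i ∈ Finset.range n, φ / g (min (i + 1) K)

lemma fw_nonneg (h0 : g 0 = 0) (hΓ : 0 < Γm) (hg : ∀ n, Γm ≤ g (n + 1) - g n) (hφ : 0 ≤ φ)
    (K n : ℕ) : 0 ≤ fw g φ K n :=
  Finset.prod_nonneg fun _ _ => div_nonneg hφ (h0 ▸ fug_mono hΓ hg (Nat.zero_le _))

lemma fw_anti (h0 : g 0 = 0) (hΓ : 0 < Γm) (hg : ∀ n, Γm ≤ g (n + 1) - g n) (hφ : 0 ≤ φ)
    {K K' : ℕ} (hK : 0 < K) (h : K ≤ K') (n : ℕ) : fw g φ K' n ≤ fw g φ K n := by
  refine Finset.prod_le_prod (fun i _ => div_nonneg hφ (h0 ▸ fug_mono hΓ hg (Nat.zero_le _)))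
    fun i _ => ?_
  exact div_le_div_of_nonneg_left hφ (fug_pos h0 hΓ hg (by omega)) (fug_mono hΓ hg (by omega))

lemma fw_summable (h0 : g 0 = 0) (hΓ : 0 < Γm) (hg : ∀ n, Γm ≤ g (n + 1) - g n) (hφ : 0 ≤ φ)
    {K : ℕ} (hK : φ < g K) : Summable (fw g φ K) := by
  have h1 : 0 < g K := hφ.trans_lt hK
  refine summable_of_ratio_norm_eventually_le (r := φ / g K) ((div_lt_one h1).2 hK) ?_
  filter_upwards [eventually_ge_atTop K] with n hn
  rw [Real.norm_of_nonneg (fw_nonneg h0 hΓ hg hφ _ _), Real.norm_of_nonneg (fw_nonneg h0 hΓ hg hφ _ _),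
    fw, Finset.prod_range_succ, min_eq_right (by omega), mul_comm]
  exact le_rfl

/-- The true one-site law is at most `1 + ε` times the truncated law. -/
theorem fug_cut [IsProbabilityMeasure ν] (h0 : g 0 = 0) (hΓ : 0 < Γm)
    (hg : ∀ n, Γm ≤ g (n + 1) - g n) (hφ : 0 ≤ φ)
    (hν : ∀ n, g (n + 1) * ν.real {n + 1} = φ * ν.real {n}) {ε : ℝ} (hε : 0 < ε) :
    ∀ᶠ K in atTop, φ < g K ∧ ∀ n, ν.real {n} ≤ (1 + ε) * (fw g φ K n / ∑' m, fw g φ K m) := by
  obtain ⟨K1, hK1⟩ := exists_nat_gt (φ / Γm)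
  have h1 : φ < g K1 := by
    rw [div_lt_iff₀ hΓ] at hK1
    exact hK1.trans_le (fug_lin h0 hg K1)
  have hK0 : 0 < K1 := by
    rcases Nat.eq_zero_or_pos K1 with h | h
    · rw [h, h0] at h1; exact absurd hφ (not_le.2 h1)
    · exact h
  have h2 : ∀ n K, n ≤ K → ν.real {n} = ν.real {0} * fw g φ K n := by
    intro n K h
    rw [fug_form h0 hΓ hg hν n, fw]
    congr 1
    exact Finset.prod_congr rfl fun i hi => by
      rw [min_eq_left (by have := Finset.mem_range.1 hi; omega)]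
  have hc : 0 ≤ ν.real {0} := measureReal_nonneg
  have h3 : Tendsto (fun K => ∑' n, ν.real {0} * fw g φ K n) atTop (𝓝 (∑' n, ν.real {n})) := by
    refine tendsto_tsum_of_dominated_convergence
      ((fw_summable h0 hΓ hg hφ h1).mul_left (ν.real {0})) (fun n => ?_) ?_
    · refine tendsto_const_nhds.congr' ?_
      filter_upwards [eventually_ge_atTop n] with K hK using h2 n K hK
    · filter_upwards [eventually_ge_atTop K1] with K hK n
      rw [Real.norm_of_nonneg (mul_nonneg hc (fw_nonneg h0 hΓ hg hφ _ _))]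
      exact mul_le_mul_of_nonneg_left (fw_anti h0 hΓ hg hφ hK0 hK n) hc
  rw [fug_hasSum.tsum_eq] at h3
  filter_upwards [h3.eventually (gt_mem_nhds (show (1 : ℝ) < 1 + ε by linarith)),
    eventually_ge_atTop K1] with K h4 h5
  have h6 : φ < g K := h1.trans_le (fug_mono hΓ hg h5)
  refine ⟨h6, fun n => ?_⟩
  rw [tsum_mul_left] at h4
  have h7 : 0 < ∑' m, fw g φ K m :=
    (fw_summable h0 hΓ hg hφ h6).tsum_pos (fw_nonneg h0 hΓ hg hφ K) 0 (by simp [fw])
  have h8 : ν.real {n} ≤ ν.real {0} * fw g φ K n := by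
    rw [h2 n (max n K) (le_max_left _ _)]
    exact mul_le_mul_of_nonneg_left (fw_anti h0 hΓ hg hφ (by omega) (le_max_right _ _) n) hc
  rw [← mul_div_assoc, le_div_iff₀ h7]
  have h9 := fw_nonneg h0 hΓ hg hφ K n
  calc ν.real {n} * ∑' m, fw g φ K m ≤ (ν.real {0} * fw g φ K n) * ∑' m, fw g φ K m := by gcongr
    _ = (ν.real {0} * ∑' m, fw g φ K m) * fw g φ K n := by ring
    _ ≤ (1 + ε) * fw g φ K n := by gcongr

end Pool.Agent.Lib.MP_dd0771_pr.Z
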