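import Pool.Agent.Lib.MP_dd0771_pr.Z.Reg

/-! The infected set of the killed system against genealogical paths of the limit process. -/

open MeasureTheory ProbabilityTheory Set Filter Topology
open scoped NNReal ENNReal

namespace Pool.Agent.Lib.MP_dd0771_pr.Z

variable {d : ℕ} {δ : ℝ≥0∞} {ω : Omega d}

/-- The infection may sit at `y` at time `u`. -/
def Ok (δ : ℝ≥0∞) (ω : Omega d) (u : ℝ) (y : S d) : Prop :=
  1 ≤ eta ω u y ∧ (eta ω u y = 1 → u ∉ marks δ ω y)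

lemma Infected.ext {s t : ℝ} {x y : S d} (h : Infected δ ω s x) (hs : 0 ≤ s) (hst : s < t)
    (hok : ∀ u ∈ Ioo s t, Ok δ ω u x) (hy : y ≠ x → Jump ω t x y) (hok' : Ok δ ω t y) :
    Infected δ ω t y := by
  obtain ⟨γ, hγ, h0, h1⟩ := h
  refine ⟨fun u => if u ≤ s then γ u else if u < t then x else y, ⟨fun u hu => ?_, fun u hu => ?_,
    fun u hu => ?_⟩, by simp [hs, h0], by simp [hst]⟩
  · by_cases h2 : u < s
    · filter_upwards [hγ.1 u ⟨hu.1, h2⟩, Ioo_mem_nhdsGT h2] with v h3 h4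
      simp [h2.le, h4.2.le, h3]
    · filter_upwards [Ioo_mem_nhdsGT hu.2] with v h3
      have h4 : ¬ v ≤ s := fun h4 => h2 (h3.1.trans_le h4)
      by_cases h5 : u ≤ s
      · simp [h4, h3.2, le_antisymm h5 (not_lt.1 h2), h1]
      · simp [h4, h3.2, h5, hu.2]
  · by_cases h2 : u ≤ s
    · obtain ⟨z, hz, hz'⟩ := hγ.2.1 u ⟨hu.1, h2⟩
      refine ⟨z, ?_, by simpa only [h2, if_true] using hz'⟩
      filter_upwards [hz, self_mem_nhdsWithin] with v h3 h4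
      have h5 : v ≤ s := (le_of_lt h4).trans h2
      simp [h5, h3]
    · refine ⟨x, ?_, ?_⟩
      · filter_upwards [Ioo_mem_nhdsLT (not_le.1 h2)] with v h3
        simp [h3.1, h3.2.trans_le hu.2]
      · rcases hu.2.eq_or_lt with h3 | h3
        · subst h3; simpa [h2] using hy
        · simp [h2, h3]
  · by_cases h2 : u ≤ s
    · simp only [h2, if_true]; exact hγ.2.2 u ⟨hu.1, h2⟩
    · rcases hu.2.eq_or_lt with h3 | h3
      · subst h3; simp only [h2, lt_irrefl, if_false]; exact hok'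
      · simp only [h2, h3, if_true, if_false]; exact hok u ⟨not_le.1 h2, h3⟩

lemma IsPath.finite {T : ℝ} {γ : ℝ → S d} (h : IsPath δ ω T γ) (hT : 0 ≤ T) :
    ∃ V : Finset (S d), ∀ u ∈ Icc 0 T, γ u ∈ V := by
  refine real_ind (P := fun s => ∃ V : Finset (S d), ∀ u ∈ Icc 0 s, γ u ∈ V) (a := 0) (b := T)
    ⟨{γ 0}, fun u hu => by rw [le_antisymm hu.2 hu.1]; simp⟩ ?_ ?_ T ⟨hT, le_rfl⟩
  · rintro t ht ⟨V, hV⟩
    obtain ⟨b, hb, hsub⟩ := mem_nhdsGT_iff_exists_Ioo_subset.1 (h.1 t ht)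
    filter_upwards [Ioo_mem_nhdsGT hb] with s hs
    refine ⟨V, fun u hu => ?_⟩
    by_cases h3 : u ≤ t
    · exact hV u ⟨hu.1, h3⟩
    · have h4 : γ u = γ t := hsub ⟨not_le.1 h3, hu.2.trans_lt hs.2⟩
      rw [h4]; exact hV t ⟨ht.1, le_rfl⟩
  · intro t ht hP
    obtain ⟨z, hz, -⟩ := h.2.1 t ht
    obtain ⟨a, ha, hsub⟩ := mem_nhdsLT_iff_exists_Ioo_subset.1 hz
    obtain ⟨s, ⟨⟨V, hV⟩, -⟩, hs⟩ := (hP.and (Ioo_mem_nhdsLT ha)).exists
    refine ⟨insert (γ t) (insert z V), fun u hu => ?_⟩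
    by_cases h3 : u ≤ s
    · simp [hV u ⟨hu.1, h3⟩]
    rcases hu.2.eq_or_lt with h4 | h4
    · simp [h4]
    · have h5 : γ u = z := hsub ⟨hs.1.trans (not_le.1 h3), h4⟩
      simp [h5]

/-- Least occupation of an infected site. -/
noncomputable def jd (δ : ℝ≥0∞) : ℕ := if δ = ⊤ then 2 else 1

/-- `I` is the infected set, confined to `Z`, of the killed system in `A` along words. -/
structure IsInf (δ : ℝ≥0∞) (K : ℕ) (A Z : Finset (S d)) (ω : Omega d)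
    (I : List (S d × Clk d) → Finset (S d)) : Prop where
  nil : ∀ y, y ∈ I [] ↔ y = 0 ∧ jd δ ≤ init A ω 0
  mark : ∀ w, (∀ a ∈ w, a ∈ kal K A) → ∀ x ∈ A, ∀ y,
    y ∈ I (w ++ [(x, none)]) ↔ y ∈ I w ∧ ¬ (y = x ∧ krun A ω w x = 1)
  idle : ∀ w, (∀ a ∈ w, a ∈ kal K A) → ∀ x ∈ A, ∀ k < K, ∀ e, ¬ k < krun A ω w x →
    I (w ++ [(x, some (e, k))]) = I w
  jump : ∀ w, (∀ a ∈ w, a ∈ kal K A) → ∀ x ∈ A, ∀ k < K, ∀ e, k < krun A ω w x → ∀ y,
    y ∈ I (w ++ [(x, some (e, k))]) ↔ (y ∈ I w ∨ (y = nb x e ∧ x ∈ I w)) ∧ y ∈ Z ∧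
      jd δ ≤ krun A ω (w ++ [(x, some (e, k))]) y

variable {K : ℕ} {A Z : Finset (S d)} {I : List (S d × Clk d) → Finset (S d)}

lemma one_le_jd : 1 ≤ jd δ := by unfold jd; split_ifs <;> omega

lemma IsInf.le (h : IsInf δ K A Z ω I) (w : List (S d × Clk d)) (hw : ∀ a ∈ w, a ∈ kal K A) :
    ∀ y ∈ I w, jd δ ≤ krun A ω w y := by
  induction w using List.reverseRecOn with
  | nil =>
    intro y hy
    obtain ⟨rfl, h1⟩ := (h.nil y).1 hy
    exact h1
  | append_singleton w a ih =>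
    have h1 : ∀ a ∈ w, a ∈ kal K A := fun b hb => hw b (List.mem_append_left _ hb)
    have h2 := hw a (by simp)
    intro y hy
    obtain ⟨x, _ | ⟨e, k⟩⟩ := a
    · rw [krun_snoc]
      exact ih h1 y ((h.mark w h1 x (mem_kal_none.1 h2) y).1 hy).1
    · obtain ⟨h3, h4⟩ := mem_kal_some.1 h2
      by_cases h5 : k < krun A ω w x
      · exact ((h.jump w h1 x h3 k h4 e h5 y).1 hy).2.2
      · rw [h.idle w h1 x h3 k h4 e h5] at hy
        rw [krun_snoc]
        simpa only [app, h5, if_false] using ih h1 y hy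

lemma Enum.letters {F : Finset (S d × Clk d)} {t : ℝ} {L : List (Lab d)} (h : Enum F ω t L) :
    ∀ a ∈ L.map Prod.fst, a ∈ F := by
  intro a ha
  obtain ⟨l, hl, rfl⟩ := List.mem_map.1 ha
  exact ((h.2 l).1 hl).1.1

variable {L : ℝ → List (Lab d)} (hG : Good ω) (hK : mass A ω ≤ K)
  (hL : ∀ t, Enum (kal K A) ω t (L t)) (h : IsInf δ K A Z ω I)
include hG hK hL h

lemma IsInf.ok {u : ℝ} {y : S d} (hy : y ∈ I ((L u).map Prod.fst))
    (hm : krun A ω ((L u).map Prod.fst) y = 1 → ∀ n j, Rel0 (kal K A) ω ((y, none), n, j) →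
      tm ω ((y, none), n, j) ≠ u) : Ok δ ω u y := by
  have h1 := h.le _ (hL u).letters y hy
  have h2 := (hG.isEvol hK hL).le_eta u y
  have h3 : 1 ≤ krun A ω ((L u).map Prod.fst) y := one_le_jd.trans h1
  refine ⟨le_trans (by exact_mod_cast h3) h2, fun h4 => ?_⟩
  have h5 : krun A ω ((L u).map Prod.fst) y ≤ 1 := by rw [h4] at h2; exact_mod_cast h2
  by_cases hδ : δ = ⊤
  · simp only [jd, hδ, if_true] at h1; omega
  · simp only [marks, hδ, if_false]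
    intro h6
    obtain ⟨n, j, h7, h8⟩ := mem_pts_iff.1 h6
    refine hm (by omega) n j ⟨mem_kal_none.2 ?_, h7⟩ h8.symm
    by_contra h9
    have := (krun_inv A ω ((L u).map Prod.fst)).1 y h9
    omega

/-- Sites infected in the killed system are infected. -/
theorem IsInf.infected {t : ℝ} (ht : 0 ≤ t) :
    ∀ y ∈ I ((L t).map Prod.fst), Infected δ ω t y := by
  refine real_ind (P := fun t => ∀ y ∈ I ((L t).map Prod.fst), Infected δ ω t y) (a := 0) (b := t)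
    ?_ ?_ ?_ t ⟨ht, le_rfl⟩
  · intro y hy
    have h1 := h.ok hG hK hL hy fun _ n j _ => (hG.tm_pos _).ne'
    rw [(hL 0).zero] at hy
    obtain ⟨rfl, -⟩ := (h.nil y).1 hy
    refine ⟨fun _ => 0, ⟨by simp, by simp, fun u hu => ?_⟩, rfl, rfl⟩
    rw [le_antisymm hu.2 hu.1]; exact h1
  · intro s hs hP
    obtain ⟨b, hb, hsub⟩ := mem_nhdsGT_iff_exists_Ioo_subset.1 (hG.enum_right hL s)
    filter_upwards [Ioo_mem_nhdsGT hb] with u hu y hy
    have h1 : ∀ v ∈ Ioc s u, Ok δ ω v y := by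
      intro v hv
      have h2 := hsub (show v ∈ Ioo s b from ⟨hv.1, hv.2.trans_lt hu.2⟩)
      refine h.ok hG hK hL (by rw [h2.1, ← (hsub hu).1]; exact hy) fun _ n j h3 h4 => ?_
      exact h2.2 _ h3 ⟨h4 ▸ hv.1, h4.le⟩
    rw [(hsub hu).1] at hy
    exact (hP y hy).ext hs.1 hu.1 (fun v hv => h1 v ⟨hv.1, hv.2.le⟩) (fun h2 => absurd rfl h2)
      (h1 u ⟨hu.1, le_rfl⟩)
  · intro s hs hP y hy
    obtain ⟨L0, h1, h2⟩ := hG.enum_left hL s
    obtain ⟨a, ha, hsub⟩ := mem_nhdsLT_iff_exists_Ioo_subset.1 h1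
    obtain ⟨u, ⟨h3, hu0⟩, hu⟩ := (hP.and (Ioo_mem_nhdsLT ha)).exists
    rw [(hsub hu).1] at h3
    have h4 : ∀ x ∈ I (L0.map Prod.fst), (y ≠ x → Jump ω s x y) → Ok δ ω s y →
        Infected δ ω s y := by
      intro x hx h5 h6
      refine (h3 x hx).ext hu0.1 hu.2 (fun v hv => ?_) h5 h6
      have h7 := hsub (show v ∈ Ioo a s from ⟨hu.1.trans hv.1, hv.2⟩)
      refine h.ok hG hK hL (by rw [h7.1]; exact hx) fun _ n j h8 h9 => ?_
      exact h7.2 _ h8 ⟨h9.ge, h9 ▸ hv.2⟩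
    have hw : ∀ a ∈ L0.map Prod.fst, a ∈ kal K A := (hsub hu).1 ▸ (hL u).letters
    rcases h2 with ⟨h2, h5⟩ | ⟨l, h5, h6, h2⟩
    · exact h4 y (h2 ▸ hy) (fun h6 => absurd rfl h6) (h.ok hG hK hL hy fun _ n j h6 => h5 _ h6)
    have h7 : (L s).map Prod.fst = L0.map Prod.fst ++ [l.1] := by simp [h2]
    have hy' := hy
    rw [h7] at hy'
    obtain ⟨⟨x, _ | ⟨e, k⟩⟩, n, j⟩ := l
    · obtain ⟨h8, h9⟩ := (h.mark _ hw x (mem_kal_none.1 h5.1) y).1 hy'
      refine h4 y h8 (fun h6 => absurd rfl h6) (h.ok hG hK hL hy fun h10 n' j' _ h11 => h9 ?_)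
      have h12 := hG.2 (h11.trans h6.symm)
      simp only [Prod.mk.injEq] at h12
      rw [h7, krun_snoc] at h10
      exact ⟨h12.1.1, h12.1.1 ▸ h10⟩
    · have h8 : Ok δ ω s y := h.ok hG hK hL hy fun _ n' j' _ h11 => by
        simpa using hG.2 (h11.trans h6.symm)
      obtain ⟨h9, h10⟩ := mem_kal_some.1 h5.1
      by_cases h11 : k < krun A ω (L0.map Prod.fst) x
      · rcases ((h.jump _ hw x h9 k h10 e h11 y).1 hy').1 with h12 | h12
        · exact h4 y h12 (fun h6 => absurd rfl h6) h8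
        · refine h4 x h12.2 (fun _ => ⟨k, e, h6 ▸ tm_mem_pts h5, h12.1, ?_⟩) h8
          filter_upwards [h1] with v hv
          refine lt_of_lt_of_le ?_ ((hG.isEvol hK hL).le_eta v x)
          simp only [hv.1]
          exact_mod_cast h11
      · rw [h.idle _ hw x h9 k h10 e h11] at hy'
        exact h4 y hy' (fun h6 => absurd rfl h6) h8

/-- A genealogical path along which the limit is attained stays in the infected set. -/
theorem IsInf.path {T : ℝ} (hT : 0 ≤ T) {γ : ℝ → S d} (hγ : IsPath δ ω T γ) (h0 : γ 0 = 0)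
    (hZ : ∀ u ∈ Icc 0 T, γ u ∈ Z) (hat : ∀ v ∈ Icc 0 T, ∀ u ∈ Icc 0 T,
      (krun A ω ((L u).map Prod.fst) (γ v) : ℕ∞) = eta ω u (γ v)) :
    ∀ u ∈ Icc 0 T, γ u ∈ I ((L u).map Prod.fst) := by
  have hj : ∀ u ∈ Icc 0 T, jd δ ≤ krun A ω ((L u).map Prod.fst) (γ u) := by
    intro u hu
    obtain ⟨h1, h2⟩ := hγ.2.2 u hu
    rw [← hat u hu u hu] at h1 h2
    have h3 : 1 ≤ krun A ω ((L u).map Prod.fst) (γ u) := by exact_mod_cast h1
    unfold jd
    split_ifs with hδ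
    · by_contra h4
      refine h2 ?_ (by simp [marks, hδ])
      exact_mod_cast (show krun A ω ((L u).map Prod.fst) (γ u) = 1 by omega)
    · exact h3
  refine real_ind (P := fun u => γ u ∈ I ((L u).map Prod.fst)) ?_ ?_ ?_
  · have h1 := hj 0 ⟨le_rfl, hT⟩
    rw [(hL 0).zero] at h1 ⊢
    exact (h.nil _).2 ⟨h0, h0 ▸ h1⟩
  · intro s hs hP
    filter_upwards [hγ.1 s hs, hG.enum_right hL s] with u h1 h2
    rw [h1, h2.1]; exact hP
  · intro s hs hP
    have hs' : s ∈ Icc 0 T := ⟨hs.1.le, hs.2⟩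
    obtain ⟨z, hz, hz'⟩ := hγ.2.1 s hs
    obtain ⟨L0, h1, h2⟩ := hG.enum_left hL s
    obtain ⟨u, ⟨h3, hu⟩, h4, h5⟩ := (hP.and (hz.and h1)).exists
    have hu' : u ∈ Icc 0 T := ⟨hu.1, hu.2.le.trans hs.2⟩
    have hw : ∀ a ∈ L0.map Prod.fst, a ∈ kal K A := h5.1 ▸ (hL u).letters
    rw [h4, h5.1] at h3
    have h6 := hj s hs'
    by_cases h7 : γ s = z
    · rcases h2 with ⟨h2, -⟩ | ⟨l, h8, h9, h2⟩
      · rw [h2, h7]; exact h3
      have h10 : (L s).map Prod.fst = L0.map Prod.fst ++ [l.1] := by simp [h2]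
      obtain ⟨⟨x, _ | ⟨e, k⟩⟩, n, j⟩ := l
      · rw [h10]
        refine (h.mark _ hw x (mem_kal_none.1 h8.1) _).2 ⟨h7 ▸ h3, ?_⟩
        rintro ⟨h11, h12⟩
        refine (hγ.2.2 s hs').2 ?_ ?_
        · rw [← hat s hs' s hs', h10, krun_snoc, h11]
          exact_mod_cast h12
        · unfold marks
          split_ifs
          · trivial
          · rw [h11, ← h9]; exact tm_mem_pts h8
      · obtain ⟨h11, h12⟩ := mem_kal_some.1 h8.1
        rw [h10] at h6 ⊢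
        by_cases h13 : k < krun A ω (L0.map Prod.fst) x
        · exact (h.jump _ hw x h11 k h12 e h13 _).2 ⟨Or.inl (h7 ▸ h3), hZ s hs', h6⟩
        · rw [h.idle _ hw x h11 k h12 e h13, h7]; exact h3
    · obtain ⟨k, e, h8, h9, h10⟩ := hz' h7
      obtain ⟨v, ⟨h11, h12⟩, hv⟩ := ((h10.and h1).and (Ico_mem_nhdsLT hs.1)).exists
      have h13 := hat u hu' v ⟨hv.1, hv.2.le.trans hs.2⟩
      rw [h4, h12.1] at h13
      rw [← h13] at h11
      have h14 : k < krun A ω (L0.map Prod.fst) z := by exact_mod_cast h11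
      have h15 : z ∈ A := by
        by_contra h15
        have := (krun_inv A ω (L0.map Prod.fst)).1 z h15
        omega
      have h16 : k < K := h14.trans_le ((krun_le A ω _ z).trans hK)
      obtain ⟨n, j, h17, h18⟩ := mem_pts_iff.1 h8
      rcases h2 with ⟨-, h2⟩ | ⟨l, -, h19, h2⟩
      · exact absurd h18.symm (h2 _ ⟨mem_kal_some.2 ⟨h15, h16⟩, h17⟩)
      have h20 : (L s).map Prod.fst = L0.map Prod.fst ++ [(z, some (e, k))] := by
        simp [h2, hG.2 (h19.trans h18)]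
      rw [h20] at h6 ⊢
      exact (h.jump _ hw z h15 k h16 e h14 _).2 ⟨Or.inr ⟨h9, h3⟩, hZ s hs', h6⟩

end Pool.Agent.Lib.MP_dd0771_pr.Z
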