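import Pool.Agent.Lib.MP_dd0771_pr.Z.Word
import Pool.Agent.Lib.MP_dd0771_pr.Z.Inf
import Pool.Agent.Lib.MP_dd0771_pr.Z.Fug
import Pool.Agent.Lib.MP_dd0771_pr.Sc.Kit3

/-! Events of the initial counts and of the words are bounded by the discrete model. -/

open MeasureTheory ProbabilityTheory Set Filter Topology
open scoped NNReal ENNReal

namespace Pool.Agent.Lib.MP_dd0771_pr.Z

variable {d : ℕ}

/-- The discrete model attached to `g` and `δ`. -/
noncomputable def md (g : ℕ → ℝ) (δ : ℝ≥0∞) : Sc.Md := ⟨fun k => g (k + 1) - g k, δ.toReal, jd δ⟩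

/-- The rings of `F` up to time `t`, in order. -/
noncomputable def en (F : Finset (S d × Clk d)) (ω : Omega d) (t : ℝ) : List (Lab d) :=
  Classical.epsilon (Enum F ω t)
/-- The words of `F` in the first `T` windows. -/
noncomputable def wds (F : Finset (S d × Clk d)) (ω : Omega d) (T : ℕ) :
    List (List (S d × Clk d)) :=
  (List.range T).map fun n => (Classical.epsilon (EnumW F ω n)).map Prod.fst

variable {F : Finset (S d × Clk d)} {ω : Omega d}

lemma Good.en_spec (h : Good ω) (F : Finset (S d × Clk d)) (t : ℝ) : Enum F ω t (en F ω t) :=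
  Classical.epsilon_spec (h.exists_enum F t)

lemma Good.en_nat (h : Good ω) (T : ℕ) : (en F ω T).map Prod.fst = (wds F ω T).flatten := by
  rw [(h.en_spec F T).unique (h.enum_flat (W := fun n => Classical.epsilon (EnumW F ω n))
    (fun n => Classical.epsilon_spec (h.exists_enumW F n)) T), wds, List.map_flatten, List.map_map]
  rfl

lemma wds_take {u T : ℕ} (h : u ≤ T) : (wds F ω T).take u = wds F ω u := by
  rw [wds, ← List.map_take, List.take_range, min_eq_left h, wds]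

lemma Good.en_filter (h : Good ω) {G : Finset (S d × Clk d)} (hG : G ⊆ F) (t : ℝ) :
    (en G ω t).map Prod.fst = ((en F ω t).map Prod.fst).filter fun a => a ∈ G := by
  have h1 : Enum G ω t ((en F ω t).filter fun l => l.1 ∈ G) := by
    refine ⟨(h.en_spec F t).1.filter _, fun l => ?_⟩
    rw [List.mem_filter, (h.en_spec F t).2]
    simp only [decide_eq_true_eq, Rel, Rel0]
    exact ⟨fun h1 => ⟨⟨h1.2, h1.1.1.2⟩, h1.1.2⟩, fun h1 => ⟨⟨⟨hG h1.1.1, h1.1.2⟩, h1.2⟩, h1.1.1⟩⟩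
  rw [(h.en_spec G t).unique h1, List.filter_map]
  rfl

lemma Good.en_take (h : Good ω) {t : ℝ} {T : ℕ} (ht : t ≤ T) :
    ∃ n, (en F ω t).map Prod.fst = (wds F ω T).flatten.take n := by
  obtain ⟨M, hM⟩ := (h.en_spec F t).isPre h ht (h.en_spec F T)
  refine ⟨(en F ω t).length, ?_⟩
  rw [← h.en_nat, hM, List.map_append, List.take_left' (by simp)]

variable {g : ℕ → ℝ} {δ : ℝ≥0∞}

lemma rt_eq (hg : ∀ n, 0 ≤ g (n + 1) - g n) (a : S d × Clk d) :
    Sc.rt (md g δ) a = rate g δ a.2 := by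
  obtain ⟨x, _ | ⟨e, k⟩⟩ := a
  · rfl
  · simp only [Sc.rt, rate, md]
    rw [Real.coe_toNNReal _ (div_nonneg (hg k) (by positivity))]

lemma wl_le (hg : ∀ n, 0 ≤ g (n + 1) - g n) {w : List (S d × Clk d)} (hw : ∀ a ∈ w, a ∈ F) :
    wl g δ F w ≤ Sc.wl (md g δ) F w := by
  set Λ := ∑ a ∈ F, Sc.rt (md g δ) a with hΛ
  have h0 : ∀ a, 0 ≤ Sc.rt (md g δ) (a : S d × Clk d) := fun a => by
    rw [rt_eq hg]; exact NNReal.coe_nonneg _
  have hΛ0 : 0 ≤ Λ := Finset.sum_nonneg fun a _ => h0 a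
  have h1 : HasSum (fun N : ℕ => Λ ^ N / N.factorial) (Real.exp Λ) := by
    have := NormedSpace.expSeries_div_hasSum_exp Λ
    rwa [← Real.exp_eq_exp_ℝ] at this
  have h2 := Sc.ofW_apply (w := fun N : ℕ => Λ ^ N / N.factorial) 0 (fun N => by positivity)
    h1.summable (by rw [h1.tsum_eq]; exact Real.exp_pos _) w.length
  rw [h1.tsum_eq] at h2
  have h3 : ENNReal.ofReal ((w.map (Sc.rt (md g δ))).prod) ≤
      ENNReal.ofReal (Λ ^ w.length) * (w.map (Sc.lw (md g δ) F)).prod := by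
    clear h2
    induction w with
    | nil => simp
    | cons a w ih =>
      have h4 := hw a List.mem_cons_self
      have h5 : ENNReal.ofReal (Sc.rt (md g δ) a) ≤ ENNReal.ofReal Λ * Sc.lw (md g δ) F a := by
        rcases hΛ0.eq_or_lt with h5 | h5
        · have := Finset.single_le_sum (f := Sc.rt (md g δ)) (fun a _ => h0 a) h4
          rw [ENNReal.ofReal_of_nonpos (by linarith)]
          exact zero_le
        · have h6 : HasSum (fun a => if a ∈ F then Sc.rt (md g δ) a else 0) Λ := by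
            have := hasSum_sum_of_ne_finset_zero (L := SummationFilter.unconditional _) (s := F)
              (f := fun a => if a ∈ F then Sc.rt (md g δ) a else 0) fun b hb => if_neg hb
            rwa [Finset.sum_congr rfl fun b hb => if_pos hb] at this
          have h7 := Sc.ofW_apply (w := fun a => if a ∈ F then Sc.rt (md g δ) a else 0) (0, none)
            (fun a => by split_ifs; exacts [h0 a, le_rfl]) h6.summable (by rwa [h6.tsum_eq]) a
          rw [h6.tsum_eq, if_pos h4] at h7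
          rw [← ENNReal.ofReal_toReal (PMF.apply_ne_top _ a), Sc.lw, h7,
            ← ENNReal.ofReal_mul hΛ0, mul_div_cancel₀ _ h5.ne']
      rw [List.map_cons, List.prod_cons, List.map_cons, List.prod_cons, List.length_cons, pow_succ',
        ENNReal.ofReal_mul (h0 a), ENNReal.ofReal_mul hΛ0, mul_mul_mul_comm]
      exact mul_le_mul' h5 (ih fun b hb => hw b (List.mem_cons_of_mem _ hb))
  rw [Sc.wl, PMF.bind_apply]
  refine le_trans ?_ (ENNReal.le_tsum w.length)
  rw [Sc.iid_apply, ← ENNReal.ofReal_toReal (PMF.apply_ne_top _ w.length), h2, wl]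
  simp only [← rt_eq hg, ← hΛ]
  have h4 : Real.exp (-Λ) * (w.map (Sc.rt (md g δ))).prod / (w.length).factorial =
      (Real.exp (-Λ) / (w.length).factorial) * (w.map (Sc.rt (md g δ))).prod := by ring
  have h5 : Λ ^ w.length / (w.length).factorial / Real.exp Λ =
      (Real.exp (-Λ) / (w.length).factorial) * Λ ^ w.length := by rw [Real.exp_neg]; ring
  rw [h4, h5, ENNReal.ofReal_mul (by positivity), ENNReal.ofReal_mul (by positivity), mul_assoc]
  exact mul_le_mul_right h3 _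

lemma ofReal_ex {α : Type} (p : PMF α) {f : α → ℝ} (hf : Sc.Bdd f) (h0 : ∀ a, 0 ≤ f a) :
    ENNReal.ofReal (Sc.ex p f) = ∑' a, p a * ENNReal.ofReal (f a) := by
  rw [Sc.ex, ENNReal.ofReal_tsum_of_nonneg (fun a => mul_nonneg ENNReal.toReal_nonneg (h0 a))
    (Sc.ex_summable p hf)]
  refine tsum_congr fun a => ?_
  rw [ENNReal.ofReal_mul ENNReal.toReal_nonneg, ENNReal.ofReal_toReal (PMF.apply_ne_top _ a)]

lemma meas_le_tsum {Ω α : Type} [MeasurableSpace Ω] (μ : Measure Ω) {X : Ω → α}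
    (hX : (range X).Countable) (E : Set Ω) : μ E ≤ ∑' a, μ (E ∩ X ⁻¹' {a}) := by
  have h1 : E ⊆ ⋃ a ∈ range X, E ∩ X ⁻¹' {a} := fun ω h => mem_iUnion₂.2 ⟨_, ⟨ω, rfl⟩, h, rfl⟩
  refine (measure_mono h1).trans ((measure_biUnion_le μ hX _).trans ?_)
  exact ENNReal.tsum_comp_le_tsum_of_injective Subtype.val_injective fun a => μ (E ∩ X ⁻¹' {a})

lemma gK_eq (h0 : g 0 = 0) (K n : ℕ) : Sc.gK (md g δ) K n = g (min n K) := by
  rw [Sc.gK, md, Finset.sum_range_sub, h0, sub_zero]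

variable (ν : Measure ℕ) [IsProbabilityMeasure ν]

lemma law_le (hg : ∀ n, 0 ≤ g (n + 1) - g n) {m : PMF ℕ} {c : ℝ≥0∞} (hm : ∀ n, ν {n} ≤ c * m n)
    (Q : Finset (S d)) (F : Finset (S d × Clk d)) (T : ℕ)
    (P : (S d → ℕ) → List (List (S d × Clk d)) → Prop) :
    law d ν g δ {ω | Good ω ∧ P (init Q ω) (wds F ω T)} ≤ c ^ Q.card * ENNReal.ofReal
      (Sc.ex (Sc.pc Q fun _ => m) fun η => Sc.pr (Sc.wls (md g δ) F T) (P η)) := by
  have h1 : (range (init Q : Omega d → S d → ℕ)).Countable := by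
    refine (countable_range fun (v : Q → ℕ) x => if h : x ∈ Q then v ⟨x, h⟩ else 0).mono ?_
    rintro _ ⟨ω, rfl⟩
    exact ⟨fun x => (ω (x, none)).1, funext fun x => by simp [init]⟩
  rw [ofReal_ex _ (Sc.Bdd.pr _ _) fun _ => Sc.pr_nonneg _ _, ← ENNReal.tsum_mul_left]
  refine (meas_le_tsum _ h1 _).trans (ENNReal.tsum_le_tsum fun η => ?_)
  rw [Sc.pr, ofReal_ex _ (Sc.Bdd.ind _) fun _ => Sc.ind_nonneg _, ← mul_assoc,
    ← ENNReal.tsum_mul_left]
  refine (meas_le_tsum _ (X := fun ω => wds F ω T) (to_countable _) _).trans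
    (ENNReal.tsum_le_tsum fun ws => ?_)
  rcases eq_empty_or_nonempty ({ω | Good ω ∧ P (init Q ω) (wds F ω T)} ∩ init Q ⁻¹' {η} ∩
    (fun ω => wds F ω T) ⁻¹' {ws}) with h2 | ⟨ω0, ⟨⟨hG, hP⟩, h3⟩, h4⟩
  · rw [h2, measure_empty]; exact zero_le
  have h3' : init Q ω0 = η := h3
  have h4' : wds F ω0 T = ws := h4
  rw [h3', h4'] at hP
  set w : ℕ → List (S d × Clk d) := fun n => (Classical.epsilon (EnumW F ω0 n)).map Prod.fst
  refine le_trans (measure_mono ?_) ((joint_le ν g δ Q F η w T).trans ?_)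
  · rintro ω ⟨⟨⟨h5, -⟩, h6⟩, h7⟩
    refine ⟨fun x hx => ?_, fun n hn => ⟨_, Classical.epsilon_spec (h5.exists_enumW F n), ?_⟩⟩
    · rw [← show init Q ω = η from h6]; simp [init, hx]
    · have h8 : wds F ω T = wds F ω0 T := (show wds F ω T = ws from h7).trans h4'.symm
      exact List.map_inj_left.1 h8 n (List.mem_range.2 hn)
  · rw [Sc.ind_pos hP, ENNReal.ofReal_one, mul_one, Sc.pc_apply,
      if_pos fun x hx => by rw [← h3']; simp [init, hx], ← Finset.prod_const,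
      ← Finset.prod_mul_distrib]
    refine mul_le_mul' (Finset.prod_le_prod' fun x _ => hm _) ?_
    have h5 : ws.length = T := by rw [← h4', wds]; simp
    rw [Sc.wls, ← h5, Sc.iid_apply, h5, ← h4', wds, List.map_map, ← List.prod_toFinset _
      List.nodup_range, List.toFinset_range]
    refine Finset.prod_le_prod' fun n _ => wl_le hg fun a ha => ?_
    obtain ⟨l, hl, rfl⟩ := List.mem_map.1 ha
    exact (((Classical.epsilon_spec (hG.exists_enumW F n)).2 l).1 hl).1.1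

/-- With a large cutoff the stationary discrete model dominates up to the factor `2`. -/
theorem law_key {Γm φ : ℝ} (h0 : g 0 = 0) (hΓ : 0 < Γm) (hg : ∀ n, Γm ≤ g (n + 1) - g n)
    (hφ : 0 ≤ φ) (hν : ∀ n, g (n + 1) * ν.real {n + 1} = φ * ν.real {n}) (Q : Finset (S d)) :
    ∀ᶠ K in atTop, ∀ (F : Finset (S d × Clk d)) (T : ℕ)
      (P : (S d → ℕ) → List (List (S d × Clk d)) → Prop),
      law d ν g δ {ω | Good ω ∧ P (init Q ω) (wds F ω T)} ≤ ENNReal.ofReal
        (2 * Sc.ex (Sc.mu (md g δ) K φ Q) fun η => Sc.pr (Sc.wls (md g δ) F T) (P η)) := by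
  obtain ⟨ε, hε, h1⟩ : ∃ ε : ℝ, 0 < ε ∧ (1 + ε) ^ Q.card ≤ 2 := by
    have h1 : Tendsto (fun ε : ℝ => (1 + ε) ^ Q.card) (𝓝[>] 0) (𝓝 ((1 + 0) ^ Q.card)) :=
      (Continuous.tendsto (by fun_prop) 0).mono_left nhdsWithin_le_nhds
    obtain ⟨ε, h2, h3⟩ := ((h1.eventually (gt_mem_nhds (show ((1 : ℝ) + 0) ^ Q.card < 2 by
      simp))).and self_mem_nhdsWithin).exists
    exact ⟨ε, h3, h2.le⟩
  filter_upwards [fug_cut h0 hΓ hg hφ hν hε] with K hK F T P
  have h2 : (fun i => if 0 ≤ i then ∏ m ∈ Finset.Ioc 0 i,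
      φ / (Sc.gK (md g δ) K m - Sc.gK (md g δ) K 0) else 0) = fw g φ K := by
    ext i
    rw [if_pos (Nat.zero_le _), fw, Finset.range_eq_Ico, Finset.prod_Ico_add' (fun m => φ /
      g (min m K)), ← Finset.Ico_add_one_add_one_eq_Ioc]
    refine Finset.prod_congr rfl fun m _ => ?_
    rw [gK_eq h0, gK_eq h0, Nat.zero_min, h0, sub_zero]
  have h3 := fw_summable h0 hΓ hg hφ hK.1
  refine (law_le ν (fun n => hΓ.le.trans (hg n)) (m := Sc.sl (md g δ) K φ 0)
    (c := ENNReal.ofReal (1 + ε)) (fun n => ?_) Q F T P).trans ?_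
  · rw [← ENNReal.ofReal_toReal (PMF.apply_ne_top _ n), Sc.sl, h2, Sc.ofW_apply 0
      (fw_nonneg h0 hΓ hg hφ K) h3 (h3.tsum_pos (fw_nonneg h0 hΓ hg hφ K) 0 (by simp [fw])),
      ← ENNReal.ofReal_mul (by positivity), ← ofReal_measureReal]
    exact ENNReal.ofReal_le_ofReal (hK.2 n)
  · rw [ENNReal.ofReal_mul zero_le_two, ← ENNReal.ofReal_pow (by positivity)]
    exact mul_le_mul_left (ENNReal.ofReal_le_ofReal h1) _

end Pool.Agent.Lib.MP_dd0771_pr.Z
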