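import Pool.Agent.Lib.MP_dd0771_pr.Sym

/-! Order statistics of independent uniform points, counting of labelled words, and independence
of counts and positions in a product of cells. -/

open MeasureTheory ProbabilityTheory Set Filter Topology
open scoped NNReal ENNReal Nat

namespace Pool.Agent.Lib.MP_dd0771_pr.Z

/-- Uniform law on `(0,1]`. -/
noncomputable abbrev unif : Measure ℝ := (volume : Measure ℝ).restrict (Ioc 0 1)

lemma ord_meas (n : ℕ) : MeasurableSet {u : Fin n → ℝ | StrictMono u} := by
  rw [measurableSet_setOfPred]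
  refine Measurable.forall fun i => Measurable.forall fun j => Measurable.imp measurable_const ?_
  exact measurableSet_setOfPred.1 (measurableSet_lt (measurable_pi_apply i) (measurable_pi_apply j))

lemma ord_le (n : ℕ) :
    (n ! : ℝ≥0∞) * Measure.infinitePi (fun _ : Fin n => unif) {u | StrictMono u} ≤ 1 := by
  classical
  set P := Measure.infinitePi (fun _ : Fin n => unif) with hP
  set E : Equiv.Perm (Fin n) → Set (Fin n → ℝ) :=
    fun σ => (fun u i => u (σ i)) ⁻¹' {u | StrictMono u} with hE
  have hm : ∀ σ : Equiv.Perm (Fin n), Measurable fun (u : Fin n → ℝ) i => u (σ i) := fun σ =>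
    measurable_pi_lambda _ fun _ => measurable_pi_apply _
  have h1 : ∀ σ, P (E σ) = P {u | StrictMono u} := by
    intro σ
    rw [hE, ← Measure.map_apply (hm σ) (ord_meas n), hP,
      Measure.map_infinitePi_infinitePi_of_inj (P := fun _ : Fin n => unif) σ.injective]
  have h2 : Pairwise (Function.onFun (AEDisjoint P) E) := by
    intro σ τ hne
    refine Disjoint.aedisjoint (Set.disjoint_left.2 fun u hσ hτ => hne ?_)
    have h3 : StrictMono (u ∘ σ) := hσ
    have h4 : StrictMono (u ∘ τ) := hτ
    have h5 : u ∘ σ = u ∘ τ := (h3.range_inj h4).1 (by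
      rw [σ.surjective.range_comp, τ.surjective.range_comp])
    have h6 : Function.Injective u := (h3.injective.of_comp_right σ.surjective)
    exact Equiv.ext fun i => h6 (congrFun h5 i)
  have h3 := tsum_measure_le_measure_univ (μ := P) (s := E)
    (fun σ => (hm σ (ord_meas n)).nullMeasurableSet) h2
  rw [tsum_fintype, measure_univ] at h3
  simpa [h1, Fintype.card_perm] using h3

lemma ord_cnt {α : Type} [BEq α] [LawfulBEq α] (F : Finset α) (n : ℕ) : ∀ (w : List α)
    (G : α → Finset ℕ), (∀ b, (G b).card ≤ w.count b) → (∀ a ∈ w, a ∈ F) →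
    ∃ s : Finset (List (α × ℕ × ℕ)), s.card ≤ ∏ b ∈ F, (w.count b)! ∧
      ∀ L : List (α × ℕ × ℕ), L.Nodup → L.map Prod.fst = w →
        (∀ l ∈ L, l.2.1 = n ∧ l.2.2 ∈ G l.1) → L ∈ s := by
  classical
  intro w
  induction w with
  | nil =>
    intro G _ _
    exact ⟨{[]}, by simp, fun L _ h _ => by simpa using h⟩
  | cons a w ih =>
    intro G hG hF
    have h1 : ∀ j ∈ G a, ∀ b, (Function.update G a ((G a).erase j) b).card ≤ w.count b := by
      intro j hj b
      have h2 := hG b
      by_cases hb : b = a
      · subst hb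
        rw [Function.update_self, Finset.card_erase_of_mem hj]
        rw [List.count_cons_self] at h2
        omega
      · rw [Function.update_of_ne hb]
        rwa [List.count_cons_of_ne (Ne.symm hb)] at h2
    choose! s hs1 hs2 using fun j hj => ih _ (h1 j hj) fun b hb => hF b (List.mem_cons_of_mem _ hb)
    refine ⟨(G a).biUnion fun j => (s j).image fun L => (a, n, j) :: L, ?_, ?_⟩
    · have ha : a ∈ F := hF a List.mem_cons_self
      have h2 : ∏ b ∈ F, ((a :: w).count b)! = (w.count a + 1) * ∏ b ∈ F, (w.count b)! := by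
        rw [← Finset.mul_prod_erase F _ ha, ← Finset.mul_prod_erase F _ ha, List.count_cons_self,
          Nat.factorial_succ, mul_assoc]
        congr 2
        refine Finset.prod_congr rfl fun b hb => ?_
        rw [List.count_cons_of_ne (Finset.ne_of_mem_erase hb).symm]
      refine Finset.card_biUnion_le.trans ?_
      refine (Finset.sum_le_card_nsmul _ _ (∏ b ∈ F, (w.count b)!) fun j hj =>
        Finset.card_image_le.trans (hs1 j hj)).trans ?_
      rw [h2, smul_eq_mul]
      have h3 := hG a
      rw [List.count_cons_self] at h3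
      exact Nat.mul_le_mul_right _ h3
    · intro L h2 h3 h4
      obtain _ | ⟨⟨a', n', j⟩, L⟩ := L
      · simp at h3
      simp only [List.map_cons, List.cons.injEq] at h3
      obtain ⟨rfl, h3⟩ := h3
      obtain ⟨h5, h6⟩ := h4 _ List.mem_cons_self
      simp only at h5 h6
      subst h5
      rw [List.nodup_cons] at h2
      refine Finset.mem_biUnion.2 ⟨j, h6, Finset.mem_image.2 ⟨L, hs2 j h6 L h2.2 h3 ?_, rfl⟩⟩
      rintro ⟨b, m, i⟩ hl
      obtain ⟨h7, h8⟩ := h4 _ (List.mem_cons_of_mem _ hl)
      simp only at h7 h8 ⊢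
      subst h7
      refine ⟨rfl, ?_⟩
      by_cases hb : b = a'
      · subst hb
        rw [Function.update_self]
        exact Finset.mem_erase.2 ⟨fun h9 => h2.1 (h9 ▸ hl), h8⟩
      · rwa [Function.update_of_ne hb]

lemma ord_split {ι X : Type} [MeasurableSpace X] (m : ι → Measure ℕ)
    [∀ i, IsProbabilityMeasure (m i)] (U : Measure X) [IsProbabilityMeasure U] (s : Finset ι)
    (c : ι → ℕ) {B : Set (ι → X)} (hB : MeasurableSet B) :
    Measure.infinitePi (fun i => (m i).prod U)
      ({ω | ∀ i ∈ s, (ω i).1 = c i} ∩ (fun ω i => (ω i).2) ⁻¹' B) =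
      (∏ i ∈ s, m i {c i}) * Measure.infinitePi (fun _ : ι => U) B := by
  classical
  set P := Measure.infinitePi (fun i => (m i).prod U) with hP
  set C : Set (ι → ℕ × X) := {ω | ∀ i ∈ s, (ω i).1 = c i} with hC
  set p := ∏ i ∈ s, m i {c i} with hp
  have hf : Measurable fun (ω : ι → ℕ × X) i => (ω i).2 :=
    measurable_pi_lambda _ fun i => measurable_snd.comp (measurable_pi_apply i)
  have box : ∀ (t : Finset ι) (D : ι → Set X), (∀ i, MeasurableSet (D i)) →
      P ((fun ω i => (ω i).2) ⁻¹' Set.pi t D ∩ C) = p * ∏ i ∈ t, U (D i) := by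
    intro t D hD
    have h1 : (fun ω i => (ω i).2) ⁻¹' Set.pi t D ∩ C = Set.pi (↑(s ∪ t))
        fun i => (if i ∈ s then {c i} else univ) ×ˢ (if i ∈ t then D i else univ) := by
      ext ω
      simp only [hC, mem_inter_iff, mem_preimage, Set.mem_pi, Finset.mem_coe, mem_ofPred_eq,
        Finset.mem_union, mem_prod]
      constructor
      · rintro ⟨h1, h2⟩ i _
        constructor
        · split_ifs with h
          · exact h2 i h
          · trivial
        · split_ifs with h
          · exact h1 i h
          · trivial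
      · intro h
        exact ⟨fun i hi => by simpa [hi] using (h i (Or.inr hi)).2,
          fun i hi => by simpa [hi] using (h i (Or.inl hi)).1⟩
    rw [h1, hP, Measure.infinitePi_pi]
    · simp only [Measure.prod_prod, Finset.prod_mul_distrib]
      simp only [apply_ite, measure_univ]
      rw [Finset.prod_ite_mem, Finset.prod_ite_mem, Finset.union_inter_cancel_left,
        Finset.union_inter_cancel_right]
    · intro i _
      refine MeasurableSet.prod ?_ ?_
      · split_ifs <;> simp
      · split_ifs
        · exact hD i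
        · exact MeasurableSet.univ
  have hpt : p ≠ ⊤ := ENNReal.prod_ne_top fun i _ => measure_ne_top _ _
  by_cases h0 : p = 0
  · have h1 := box ∅ (fun _ => univ) fun _ => MeasurableSet.univ
    rw [h0, zero_mul] at h1 ⊢
    exact measure_mono_null (fun ω hω => mem_inter (by simp) hω.1) h1
  have h2 : p⁻¹ • (P.restrict C).map (fun ω i => (ω i).2) = Measure.infinitePi fun _ : ι => U := by
    refine Measure.eq_infinitePi _ fun t D hD => ?_
    have h3 : MeasurableSet (Set.pi (↑t) D) := MeasurableSet.pi t.countable_toSet fun i _ => hD i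
    rw [Measure.smul_apply, Measure.map_apply hf h3, Measure.restrict_apply (hf h3), box t D hD,
      smul_eq_mul, ← mul_assoc, ENNReal.inv_mul_cancel h0 hpt, one_mul]
  rw [← h2, Measure.smul_apply, Measure.map_apply hf hB, Measure.restrict_apply (hf hB),
    smul_eq_mul, ← mul_assoc, ENNReal.mul_inv_cancel h0 hpt, one_mul, inter_comm]

/-- Positions at distinct places are in increasing order with probability at most `1 / n!`. -/
lemma ord_pos {ι : Type} {n : ℕ} {f : Fin n → ι × ℕ} (hf : Function.Injective f) :
    (n ! : ℝ≥0∞) * Measure.infinitePi (fun _ : ι => Measure.infinitePi fun _ : ℕ => unif)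
      {v | StrictMono fun i => v (f i).1 (f i).2} ≤ 1 := by
  have h1 : Measurable fun (u : ι × ℕ → ℝ) i => u (f i) :=
    measurable_pi_lambda _ fun _ => measurable_pi_apply _
  have h2 := Measure.infinitePi_map_curry_symm (fun (_ : ι) (_ : ℕ) => unif)
  have h3 := Measure.map_infinitePi_infinitePi_of_inj (P := fun _ : ι × ℕ => unif) hf
  have h4 := ord_le n
  rw [← h3, Measure.map_apply h1 (ord_meas n), ← h2,
    Measure.map_apply (MeasurableEquiv.measurable _) (h1 (ord_meas n))] at h4
  exact h4

end Pool.Agent.Lib.MP_dd0771_pr.Z
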