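import Pool.Agent.Lib.MP_dd0771_pr.Z.End

/-! Local survival in infinite volume from the discrete model. -/

open MeasureTheory ProbabilityTheory Set Filter Topology
open scoped NNReal ENNReal

namespace Pool.Agent.Lib.MP_dd0771_pr.Z

variable {d : ℕ} {g : ℕ → ℝ} {δ : ℝ≥0∞} {F : Sc.Fr}

/-- The reflected system exceeds the killed one in the inner box. -/
def OutBad (N K : ℕ) (η : S d → ℕ) (ws : List (List (S d × Clk d))) : Prop :=
  ∃ u w i, ws[u]? = some w ∧ ∃ x ∈ Sc.bx (0 : S d) N,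
    Sc.mw (kal K (Sc.bx 0 (2 * N))) (Sc.ms (kal K (Sc.bx 0 (2 * N))) η (ws.take u)) (w.take i) x <
    Sc.mw (Sc.al K (Sc.bx 0 (2 * N))) (Sc.ms (Sc.al K (Sc.bx 0 (2 * N))) η (ws.take u))
      (w.take i) x

lemma out_small (hF : F.Ok) (hE : Sc.S_EARLY d F) (t : ℕ) {e : ℝ} (he : 0 < e) :
    ∀ᶠ N in atTop, ∀ K, Sc.KOk F K → (Sc.ex (Sc.mu F.toMd K F.hi (Sc.bx (0 : S d) (2 * N)))
      fun η => Sc.pr (Sc.wls F.toMd (kal K (Sc.bx 0 (2 * N))) t) (OutBad N K η)) ≤ e := by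
  obtain ⟨C, hC, hE⟩ := hE
  obtain ⟨c, hc, hmean⟩ := Sc.sl_mean hF
  have h1 : Tendsto (fun N : ℕ => ((c + 1) * 5 ^ d * C ^ t * Real.exp 1) *
      ((N : ℝ) ^ d * Real.exp (-N))) atTop (𝓝 (((c + 1) * 5 ^ d * C ^ t * Real.exp 1) * 0)) :=
    ((Real.tendsto_pow_mul_exp_neg_atTop_nhds_zero d).comp tendsto_natCast_atTop_atTop).const_mul _
  rw [mul_zero] at h1
  filter_upwards [h1.eventually (gt_mem_nhds he), eventually_gt_atTop 0] with N h2 hN K hK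
  set Q := Sc.bx (0 : S d) (2 * N) with hQ
  set p := Sc.mu F.toMd K F.hi Q with hp
  obtain ⟨h3, h4⟩ := Sc.ex_pc_mass Q Q (fun _ => Sc.sl F.toMd K F.hi 0) (c := c) (by linarith)
    fun _ _ => hmean K F.hi 0 ⟨hK, hF.2.2.2.2.2.1.le, le_rfl⟩ (by omega)
  have h5 := Sc.ex_summable p (Sc.Bdd.const 1)
  set a := C ^ t * Real.exp (-(((2 * N - 1 : ℕ) : ℝ) - N)) with ha
  have h6 : Sc.ex p (fun η => (Sc.mass η Q + 1) * a) ≤ (c * Q.card + 1) * a := by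
    rw [Sc.ex_mul_right]
    refine mul_le_mul_of_nonneg_right ?_ (by positivity)
    have h6 : Sc.ex p (fun η => (Sc.mass η Q : ℝ) + 1) =
        Sc.ex p (fun η => (Sc.mass η Q : ℝ)) + Sc.ex p fun _ => 1 := by
      simp only [Sc.ex, mul_add]
      exact h3.tsum_add h5
    rw [h6, Sc.ex_const]
    exact add_le_add_left h4 _
  refine (Sc.ex_mono' ?_ (fun _ _ => Sc.pr_nonneg _ _) fun η _ => ?_).trans (h6.trans ?_)
  · simp only [← mul_assoc, mul_add]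
    exact (h3.add h5).mul_right a
  · rw [ha, ← mul_assoc]
    exact hE (kal K Q) (Sc.al K Q) (kal K Q) Q 0 (2 * N - 1) N t η η (al_subset K Q) subset_rfl
      (fun x e k h => ⟨(mem_al_some.1 h).1, (mem_al_some.1 h).2.2⟩) (Sc.bx_mono _ (by omega))
      (fun x hx q => (end_agree (by omega) (x, some q) hx).symm) (by omega) fun _ _ => le_rfl
  · refine le_trans ?_ h2.le
    have hN' : (1 : ℝ) ≤ N := by exact_mod_cast hN
    have h7 : (Q.card : ℝ) ≤ 5 ^ d * (N : ℝ) ^ d := by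
      rw [hQ, Sc.card_bx, ← mul_pow]
      push_cast
      gcongr
      linarith
    have h8 : (1 : ℝ) ≤ 5 ^ d * (N : ℝ) ^ d := by
      rw [← mul_pow]; exact one_le_pow₀ (by linarith)
    have h9 : a = C ^ t * Real.exp 1 * Real.exp (-N) := by
      rw [ha, mul_assoc, ← Real.exp_add, Nat.cast_sub (by omega)]
      congr 2
      push_cast; ring
    rw [h9]
    calc (c * Q.card + 1) * (C ^ t * Real.exp 1 * Real.exp (-N))
        ≤ (c * (5 ^ d * (N : ℝ) ^ d) + 5 ^ d * (N : ℝ) ^ d) *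
          (C ^ t * Real.exp 1 * Real.exp (-N)) := by gcongr
      _ = _ := by ring

lemma out_le {ω : Omega d} (hG : Good ω) {N K u t : ℕ} (hN : 0 < N) (hu : u ≤ t)
    (h : ¬ OutBad N K (init (Sc.bx 0 (2 * N)) ω) (wds (kal K (Sc.bx 0 (2 * N))) ω t)) :
    sI g δ (Sc.al K (Sc.bx 0 (2 * N))) N K ω u ⊆ sI g δ (kal K (Sc.bx 0 (2 * N))) N K ω u := by
  refine lk_cmp one_le_jd (lk_ini _ _ _ _) subset_rfl
    (fun a ha => (end_agree (by omega) a ha).symm) _ fun n x hx => ?_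
  obtain ⟨m, hm⟩ := hG.en_take (F := kal K (Sc.bx 0 (2 * N))) (t := u) (T := t)
    (by exact_mod_cast hu)
  rw [hm, List.take_take]
  by_cases h1 : wds (kal K (Sc.bx 0 (2 * N))) ω t = []
  · simp [h1, Sc.mw]
  obtain ⟨u', w, i, h2, h3⟩ := lk_take _ h1 (min n m)
  rw [h3, ← lk_ms, ← lk_ms]
  by_contra h4
  exact h ⟨u', w, i, h2, x, hx, not_le.1 h4⟩

theorem end_out {ν : Measure ℕ} [IsProbabilityMeasure ν] (hF : F.Ok) (hm : F.toMd = md g δ)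
    (h0 : g 0 = 0) (hν : ∀ n, g (n + 1) * ν.real {n + 1} = F.hi * ν.real {n})
    (hO : Sc.S_OCC d F) (hE : Sc.S_EARLY d F) (hM : Sc.S_MAIN d F) :
    ∀ᵐ ω ∂law d ν g δ, WellPosed ω ∧ (Survives δ ω → LocalSurvival δ ω) := by
  have h1 : F.lo ≤ F.hi := hF.2.2.2.2.2.1.le
  have key : ∀ n1 : ℕ, law d ν g δ {ω | (Good ω ∧ Bdd ω) ∧ Survives δ ω ∧
      ∀ u : ℕ, n1 ≤ u → ¬ Infected δ ω u 0} = 0 := by
    intro n1
    by_contra hne
    obtain ⟨θ, h4, h5, h6⟩ := ENNReal.lt_iff_exists_real_btwn.1 (pos_iff_ne_zero.2 hne)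
    have hθ := ENNReal.ofReal_pos.1 h5
    obtain ⟨t, ht⟩ := hM (θ / 4) (by linarith) n1
    set P : ℕ → ℕ → (S d → ℕ) → List (List (S d × Clk d)) → Prop := fun N K η ws =>
      (fun I : Sc.Tj d => (I t).Nonempty ∧ ∀ u, n1 ≤ u → u ≤ t → 0 ∉ I u) (Sc.tj F.toMd
        ⟨Sc.al K (Sc.bx 0 (2 * N)), Sc.bx 0 N⟩ (Sc.ini F.toMd (Sc.bx 0 N) {0} η) ws) with hP
    have h7 := end_lt2 (B := fun N K =>
      {ω : Omega d | Good ω ∧ P N K (init (Sc.bx 0 (2 * N)) ω)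
        (wds (Sc.al K (Sc.bx 0 (2 * N))) ω t)} ∪
      {ω : Omega d | Good ω ∧ OutBad N K (init (Sc.bx 0 (2 * N)) ω)
        (wds (kal K (Sc.bx 0 (2 * N))) ω t)}) ?_ h6
    · obtain ⟨N, ⟨h8, h9⟩, h10⟩ := ((h7.and ht).and
        (out_small hF hE t (show 0 < θ / 4 by linarith))).exists
      obtain ⟨K, ⟨⟨h11, h12⟩, h13⟩, h14⟩ := (((h8.and h9).and
        (end_key hF hm h0 h1 hν (Sc.bx 0 (2 * N)))).and (Sc.kOk_eventually hF)).exists
      refine absurd (h11.trans_le ((measure_union_le _ _).trans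
        (add_le_add (h13 _ t (P N K)) (h13 _ t (OutBad N K))))) (not_lt.2 ?_)
      have h15 := h10 K h14
      have h16 : ENNReal.ofReal θ = ENNReal.ofReal (2 * (θ / 4)) + ENNReal.ofReal (2 * (θ / 4)) := by
        rw [← ENNReal.ofReal_add (by linarith) (by linarith)]
        congr 1; ring
      rw [h16]
      exact add_le_add (ENNReal.ofReal_le_ofReal (mul_le_mul_of_nonneg_left h12 zero_le_two))
        (ENNReal.ofReal_le_ofReal (mul_le_mul_of_nonneg_left h15 zero_le_two))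
    · rintro ω ⟨⟨hG, hB⟩, hω, hno⟩
      obtain ⟨y, hy⟩ := hω t (Nat.cast_nonneg t)
      obtain ⟨N0, hN⟩ := end_cover (g := g) hG hB (Nat.cast_nonneg t) hy
      filter_upwards [eventually_ge_atTop N0, eventually_gt_atTop 0] with N h7 h8
      filter_upwards [eventually_ge_atTop (mass (Sc.bx 0 (2 * N)) ω)] with K hK
      by_cases h9 : OutBad N K (init (Sc.bx 0 (2 * N)) ω) (wds (kal K (Sc.bx 0 (2 * N))) ω t)
      · exact Or.inr ⟨hG, h9⟩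
      refine Or.inl ⟨hG, ?_⟩
      simp only [hP, hm]
      refine ⟨⟨y, ?_⟩, fun u h10 h11 h12 => ?_⟩
      · rw [end_tj hG N K le_rfl]
        exact end_le h8 K _ (hN N h7 K hK)
      · rw [end_tj hG N K h11] at h12
        exact hno u h10 (end_inf hG hK (Nat.cast_nonneg u) _ (out_le hG h8 h11 h9 h12))
  have h3 : ∀ᵐ ω ∂law d ν g δ, ∀ n1 : ℕ, ¬ ((Good ω ∧ Bdd ω) ∧ Survives δ ω ∧
      ∀ u : ℕ, n1 ≤ u → ¬ Infected δ ω u 0) := by
    simp only [ae_all_iff]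
    exact fun n => measure_eq_zero_iff_ae_notMem.1 (key n)
  filter_upwards [end_bdd hF hm h0 h1 le_rfl hν hO, h3] with ω h4 h5
  refine ⟨wellPosed h4.1 h4.2, fun h6 ⟨T, hT⟩ => ?_⟩
  obtain ⟨n, hn⟩ := exists_nat_gt T
  refine h5 n ⟨h4, h6, fun u hu h7 => ?_⟩
  have h8 : (u : ℝ) ≤ T := hT ⟨Nat.cast_nonneg u, h7⟩
  have h9 : (n : ℝ) ≤ u := by exact_mod_cast hu
  linarith

/-- The bridge: the three facts on the discrete model give the theorem in infinite volume. -/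
theorem bridge (hO : ∀ F : Sc.Fr, F.Ok → Sc.S_OCC d F) (hE : ∀ F : Sc.Fr, F.Ok → Sc.S_EARLY d F)
    (hD : ∀ F : Sc.Fr, F.Ok → Sc.S_TH d F → Sc.S_MAIN d F) {Γm Γp : ℝ} (h0 : g 0 = 0)
    (hΓ : 0 < Γm) (hg : ∀ n, Γm ≤ g (n + 1) - g n ∧ g (n + 1) - g n ≤ Γp) {ν' ν : Measure ℕ}
    [IsProbabilityMeasure ν'] [IsProbabilityMeasure ν] {φ' φ : ℝ} (hφ' : 0 < φ') (hφ : 0 < φ)
    (hν' : ∀ n, g (n + 1) * ν'.real {n + 1} = φ' * ν'.real {n})
    (hν : ∀ n, g (n + 1) * ν.real {n + 1} = φ * ν.real {n})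
    (hlt : ∫⁻ n, (n : ℝ≥0∞) ∂ν' < ∫⁻ n, (n : ℝ≥0∞) ∂ν)
    (hS : law d ν' g δ {ω | Survives δ ω} ≠ 0) :
    ∀ᵐ ω ∂law d ν g δ, WellPosed ω ∧ (Survives δ ω → LocalSurvival δ ω) := by
  have h1 := fug_lt h0 hΓ (fun n => (hg n).1) hφ.le hν hν' hlt
  have hF : Sc.Fr.Ok { md g δ with Gm := Γm, Gp := Γp, lo := φ', hi := φ, A := 3 } :=
    ⟨hΓ, hg, ENNReal.toReal_nonneg, by simp only [md, jd]; split_ifs <;> simp, hφ', h1, le_rfl⟩
  exact end_out hF rfl h0 hν (hO _ hF) (hE _ hF)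
    (hD _ hF (end_in hF rfl h0 le_rfl h1.le hν' (hO _ hF) rfl hS))

end Pool.Agent.Lib.MP_dd0771_pr.Z
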