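import Pool.Agent.Lib.MP_dd0771_pr.Z.Run

/-! Regularity of the limit process when it is locally bounded. -/

open MeasureTheory ProbabilityTheory Set Filter Topology
open scoped NNReal ENNReal

namespace Pool.Agent.Lib.MP_dd0771_pr.Z

variable {d : ℕ}

/-- The process is locally bounded. -/
def Bdd (ω : Omega d) : Prop := ∀ (T : ℝ) (y : S d), ∃ H : ℕ, ∀ v ∈ Icc 0 T, eta ω v y ≤ H

variable {ω : Omega d}

lemma Bdd.three (h : Bdd ω) (T : ℝ) (x : S d) : ∃ H : ℕ, ∀ A ζ, IsEvol A ω ζ → ∀ v ∈ Icc 0 T,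
    ∀ y ∈ nbs x, ζ v y ≤ H := by
  choose H hH using h T
  refine ⟨(nbs x).sup H, fun A ζ hζ v hv y hy => ?_⟩
  exact (eta_le_iff.1 (hH y v hv) A ζ hζ).trans (Finset.le_sup (f := H) hy)

lemma Good.three_finite (h : Good ω) (x : S d) (H : ℕ) (T : ℝ) :
    {v | v ≤ T ∧ ∃ y, y ∈ nbs x ∧ v ∈ rings ω y H}.Finite := by
  refine (Set.Finite.biUnion (nbs x).finite_toSet fun y _ => h.rings_finite y H T).subset ?_
  rintro v ⟨h1, y, hy, h2⟩
  exact mem_iUnion₂.2 ⟨y, hy, h2, h1⟩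

lemma evol_right (hG : Good ω) (hB : Bdd ω) {t : ℝ} (ht : 0 ≤ t) (x : S d) :
    ∀ᶠ u in 𝓝[>] t, ∀ A ζ, IsEvol A ω ζ → ζ u x = ζ t x := by
  obtain ⟨H, hH⟩ := hB.three (t + 1) x
  filter_upwards [ev_right_notMem (hG.three_finite x H (t + 1)) t,
    Ioo_mem_nhdsGT (lt_add_one t)] with u h1 h2 A ζ hζ
  refine hζ.const ht (b := u) (H := H) (fun v hv => hH A ζ hζ v ⟨ht.trans hv.1, ?_⟩)
    (fun v hv y hy h3 => h1 v hv ⟨hv.2.trans h2.2.le, y, hy, h3⟩) u ⟨h2.1.le, le_rfl⟩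
  exact hv.2.le.trans h2.2.le

lemma eta_right (hG : Good ω) (hB : Bdd ω) {t : ℝ} (ht : 0 ≤ t) (x : S d) :
    ∀ᶠ u in 𝓝[>] t, eta ω u x = eta ω t x :=
  (evol_right hG hB ht x).mono fun _ h => eta_congr h

lemma evol_left (hG : Good ω) (hB : Bdd ω) {t : ℝ} (ht : 0 < t) (x : S d) :
    ∀ᶠ s in 𝓝[<] t, ∀ u ∈ Ico s t, ∀ A ζ, IsEvol A ω ζ → ζ u x = ζ s x := by
  obtain ⟨H, hH⟩ := hB.three t x
  filter_upwards [ev_left_notMem (hG.three_finite x H t) t, Ioo_mem_nhdsLT ht]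
    with s h1 h2 u hu A ζ hζ
  refine hζ.const h2.1.le (b := u) (H := H) (fun v hv => hH A ζ hζ v ⟨h2.1.le.trans hv.1, ?_⟩)
    (fun v hv y hy h3 => h1 v ⟨hv.1.le, hv.2.trans_lt hu.2⟩
      ⟨hv.2.trans hu.2.le, y, hy, h3⟩) u ⟨hu.1, le_rfl⟩
  exact hv.2.le.trans hu.2.le

lemma eta_attained (hG : Good ω) (hB : Bdd ω) {t : ℝ} (ht : 0 ≤ t) (x : S d) :
    ∃ A0 : Finset (S d), ∀ A ζ, A0 ⊆ A → IsEvol A ω ζ → (ζ t x : ℕ∞) = eta ω t x := by
  obtain ⟨H, hH⟩ := hB t x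
  have h1 : eta ω t x ≠ ⊤ := ne_top_of_le_ne_top (ENat.natCast_ne_top H) (hH t ⟨ht, le_rfl⟩)
  obtain ⟨m, hm⟩ := ENat.ne_top_iff_exists.1 h1
  rcases m with _ | m
  · refine ⟨∅, fun A ζ _ hζ => le_antisymm (hζ.le_eta t x) ?_⟩
    rw [← hm]; simp
  · obtain ⟨A0, ζ0, h2, h3⟩ := (lt_eta_iff (ω := ω) (t := t) (x := x) (k := m)).1
      (by rw [← hm]; exact_mod_cast Nat.lt_succ_self m)
    refine ⟨A0, fun A ζ hA hζ => le_antisymm (hζ.le_eta t x) ?_⟩
    have := h2.mono hG.noTie hA hζ ht x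
    rw [← hm]
    exact_mod_cast (show m + 1 ≤ ζ t x by omega)

lemma wellPosed (hG : Good ω) (hB : Bdd ω) : WellPosed ω := by
  classical
  have hfin : ∀ t, 0 ≤ t → ∀ x, eta ω t x = ((eta ω t x).toNat : ℕ) := by
    intro t ht x
    obtain ⟨H, hH⟩ := hB t x
    exact (ENat.natCast_toNat (ne_top_of_le_ne_top (ENat.natCast_ne_top H) (hH t ⟨ht, le_rfl⟩))).symm
  refine ⟨fun A => ?_, fun t x => (eta ω t x).toNat, hfin, fun x => ?_, fun t ht x => ?_,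
    fun t ht x => ?_⟩
  · obtain ⟨ζ, hζ⟩ := hG.exists_evol A
    exact ⟨ζ, hζ, fun ζ' hζ' t ht => hζ'.unique hG.noTie hζ ht⟩
  · obtain ⟨A0, hA⟩ := eta_attained hG hB le_rfl x
    obtain ⟨ζ, hζ⟩ := hG.exists_evol (insert x A0)
    simp only [← hA _ ζ (Finset.subset_insert _ _) hζ, hζ.1]
    simp
  · filter_upwards [eta_right hG hB ht x] with u hu
    rw [hu]
  · obtain ⟨s, h5, h4⟩ := (((eventually_all_finset (nbs x)).2 fun y _ =>
      evol_left hG hB ht y).and (Ioo_mem_nhdsLT ht)).exists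
    have h6 : ∀ y ∈ nbs x, ∀ᶠ u in 𝓝[<] t, eta ω u y = eta ω s y := by
      intro y hy
      filter_upwards [Ico_mem_nhdsLT h4.2] with u hu
      exact eta_congr (h5 y hy u hu)
    choose A1 hA1 using eta_attained hG hB h4.1.le
    obtain ⟨A4, hA4⟩ := eta_attained hG hB ht.le x
    obtain ⟨ζ, hζ⟩ := hG.exists_evol (insert x ((nbs x).biUnion A1 ∪ A4))
    have hx : x ∈ insert x ((nbs x).biUnion A1 ∪ A4) := Finset.mem_insert_self _ _
    have h7 : ∀ y ∈ nbs x, (ζ s y : ℕ∞) = eta ω s y := fun y hy =>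
      hA1 y _ ζ (fun z hz => Finset.mem_insert_of_mem (Finset.mem_union_left _
        (Finset.mem_biUnion.2 ⟨y, hy, hz⟩))) hζ
    have h8 : (eta ω t x).toNat = ζ t x := by
      rw [← hA4 _ ζ (fun z hz => by simp [hz]) hζ]; simp
    obtain ⟨ξ, h9, h10⟩ := hζ.2.2 t ht
    have h11 : ∀ y ∈ nbs x, ∀ᶠ u in 𝓝[<] t, eta ω u y = ξ y := by
      intro y hy
      obtain ⟨u, h11, h12⟩ := (h9.and (Ico_mem_nhdsLT h4.2)).exists
      rw [← h11, h5 y hy u h12 _ ζ hζ, h7 y hy]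
      exact h6 y hy
    have h12 : ∀ y ∈ nbs x, ∀ k : ℕ,
        (∀ᶠ u in 𝓝[<] t, (k : ℕ∞) < eta ω u y) ↔ k < ξ y := by
      intro y hy k
      constructor
      · intro h12
        obtain ⟨u, h13, h14⟩ := (h12.and (h11 y hy)).exists
        rw [h14] at h13
        exact_mod_cast h13
      · intro h12
        filter_upwards [h11 y hy] with u hu
        rw [hu]; exact_mod_cast h12
    have hxx : x ∈ nbs x := self_mem_nbs x
    have hnb : ∀ y e, x = nb y e → y ∈ nbs x := fun y e h => mem_nbs h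
    refine ⟨ξ x, ?_, ?_⟩
    · filter_upwards [h11 x hxx] with u hu
      rw [hu]; simp
    simp only [h8]
    rcases h10 with ⟨h13, h10⟩ | ⟨y, k, e, h13, hk, h10⟩
    · have h14 : ¬ ∃ y, Jump ω t x y := by
        rintro ⟨y, k, e, h14, -, h15⟩
        exact absurd ((h12 x hxx k).1 h15) (not_lt.2 (h13 x k e h14))
      have h15 : ¬ ∃ y, Jump ω t y x := by
        rintro ⟨y, k, e, h14, h16, h15⟩
        exact absurd ((h12 y (hnb y e h16) k).1 h15) (not_lt.2 (h13 y k e h14))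
      rw [if_neg h14, if_neg h15, h10]
    · rw [h10]
      by_cases h14 : y = x
      · subst h14
        have h15 : ∃ z, Jump ω t y z := ⟨_, k, e, h13, rfl, (h12 y hxx k).2 hk⟩
        have h16 : ¬ ∃ z, Jump ω t z y := by
          rintro ⟨z, k', e', h16, h17, -⟩
          obtain ⟨rfl, -, -⟩ := hG.noTie.jmp h13 h16
          exact nb_ne _ _ h17.symm
        rw [if_pos h15, if_neg h16]
        simp only [move, (nb_ne y e).symm, false_and, if_true, if_false]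
        omega
      · have h15 : ¬ ∃ z, Jump ω t x z := by
          rintro ⟨z, k', e', h16, -, -⟩
          exact h14 (hG.noTie.jmp h13 h16).1
        rw [if_neg h15]
        by_cases h16 : x = nb y e
        · have h17 : ∃ z, Jump ω t z x := ⟨y, k, e, h13, h16, (h12 y (hnb y e h16) k).2 hk⟩
          rw [if_pos h17]
          simp only [move, ← h16, Ne.symm h14, hx, and_self, if_true, if_false]
          omega
        · have h17 : ¬ ∃ z, Jump ω t z x := by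
            rintro ⟨z, k', e', h17, h18, -⟩
            obtain ⟨rfl, -, rfl⟩ := hG.noTie.jmp h13 h17
            exact h16 h18
          rw [if_neg h17]
          simp [move, h16, Ne.symm h14]

/-- The limit is attained on a whole time interval. -/
lemma eta_attained_Icc (hG : Good ω) (hB : Bdd ω) (T : ℝ) (x : S d) :
    ∃ A0 : Finset (S d), ∀ A ζ, A0 ⊆ A → IsEvol A ω ζ → ∀ u ∈ Icc 0 T,
      (ζ u x : ℕ∞) = eta ω u x := by
  classical
  by_cases hT : 0 ≤ T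
  swap
  · exact ⟨∅, fun _ _ _ _ u hu => absurd (hu.1.trans hu.2) hT⟩
  refine real_ind (P := fun s => ∃ A0 : Finset (S d), ∀ A ζ, A0 ⊆ A → IsEvol A ω ζ →
    ∀ u ∈ Icc 0 s, (ζ u x : ℕ∞) = eta ω u x) (a := 0) (b := T) ?_ ?_ ?_ T ⟨hT, le_rfl⟩
  · obtain ⟨A0, h⟩ := eta_attained hG hB le_rfl x
    refine ⟨A0, fun A ζ h1 h2 u hu => ?_⟩
    rw [le_antisymm hu.2 hu.1]; exact h A ζ h1 h2
  · rintro t ht ⟨A0, h⟩
    obtain ⟨b, hb, hsub⟩ := mem_nhdsGT_iff_exists_Ioo_subset.1 (evol_right hG hB ht.1 x)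
    filter_upwards [Ioo_mem_nhdsGT hb] with s hs
    refine ⟨A0, fun A ζ h1 h2 u hu => ?_⟩
    by_cases h3 : u ≤ t
    · exact h A ζ h1 h2 u ⟨hu.1, h3⟩
    · have h4 := hsub (show u ∈ Ioo t b from ⟨not_le.1 h3, hu.2.trans_lt hs.2⟩)
      rw [h4 A ζ h2, eta_congr h4]
      exact h A ζ h1 h2 t ⟨ht.1, le_rfl⟩
  · intro t ht hP
    obtain ⟨s, ⟨⟨A0, h⟩, hs⟩, h5⟩ := (hP.and (evol_left hG hB ht.1 x)).exists
    obtain ⟨A1, h'⟩ := eta_attained hG hB ht.1.le x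
    refine ⟨A0 ∪ A1, fun A ζ h1 h2 u hu => ?_⟩
    have h6 : A0 ⊆ A := Finset.subset_union_left.trans h1
    by_cases h3 : u ≤ s
    · exact h A ζ h6 h2 u ⟨hu.1, h3⟩
    rcases hu.2.eq_or_lt with h4 | h4
    · rw [h4]; exact h' A ζ (Finset.subset_union_right.trans h1) h2
    · have h7 := h5 u ⟨(not_le.1 h3).le, h4⟩
      rw [h7 A ζ h2, eta_congr h7]
      exact h A ζ h6 h2 s ⟨hs.1, le_rfl⟩

end Pool.Agent.Lib.MP_dd0771_pr.Z
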