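import Pool.Agent.Lib.MP_dd0771_pr.Z.Enum

/-! The killed system is a fold over the ordered rings. -/

open MeasureTheory ProbabilityTheory Set Filter Topology
open scoped NNReal ENNReal

namespace Pool.Agent.Lib.MP_dd0771_pr.Z

variable {d : ℕ}

/-- All clocks at the sites of `A`, jump clocks up to level `K`. -/
def kal (K : ℕ) (A : Finset (S d)) : Finset (S d × Clk d) :=
  A ×ˢ insert none (((Finset.univ : Finset (Dir d)) ×ˢ Finset.range K).image some)

lemma mem_kal_none {K : ℕ} {A : Finset (S d)} {x : S d} : (x, none) ∈ kal K A ↔ x ∈ A := by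
  simp [kal]

lemma mem_kal_some {K : ℕ} {A : Finset (S d)} {x : S d} {k : ℕ} {e : Dir d} :
    (x, some (e, k)) ∈ kal K A ↔ x ∈ A ∧ k < K := by
  simp only [kal, Finset.mem_product, Finset.mem_insert, reduceCtorEq, Finset.mem_image,
    Finset.mem_range, Finset.mem_univ, true_and, Option.some.injEq, false_or, exists_eq_right]

/-- Effect of a ring on the killed system. -/
def app (A : Finset (S d)) (ξ : S d → ℕ) : S d × Clk d → S d → ℕ
  | (_, none) => ξ
  | (x, some (e, k)) => if k < ξ x then move A ξ x (nb x e) else ξ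

/-- Initial configuration in `A`. -/
def init (A : Finset (S d)) (ω : Omega d) : S d → ℕ :=
  fun x => if x ∈ A then (ω (x, none)).1 else 0

/-- Effect of a word on the killed system. -/
def krun (A : Finset (S d)) (ω : Omega d) (w : List (S d × Clk d)) : S d → ℕ :=
  w.foldl (app A) (init A ω)

variable {ω : Omega d} {A : Finset (S d)}

lemma krun_snoc (w : List (S d × Clk d)) (a : S d × Clk d) :
    krun A ω (w ++ [a]) = app A (krun A ω w) a := by simp [krun]

lemma krun_inv (A : Finset (S d)) (ω : Omega d) (w : List (S d × Clk d)) :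
    (∀ x, x ∉ A → krun A ω w x = 0) ∧ ∑ z ∈ A, krun A ω w z ≤ mass A ω := by
  induction w using List.reverseRecOn with
  | nil =>
    refine ⟨fun x hx => by simp [krun, init, hx], le_of_eq ?_⟩
    exact Finset.sum_congr rfl fun z hz => by simp [krun, init, hz]
  | append_singleton w a ih =>
    rw [krun_snoc]
    obtain ⟨x, _ | ⟨e, k⟩⟩ := a
    · exact ih
    simp only [app]
    split_ifs with h2
    · have hx : x ∈ A := by
        by_contra hx
        have := ih.1 _ hx
        omega
      refine ⟨fun z hz => ?_, (sum_move_le hx (by omega) _).trans ih.2⟩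
      have : ¬ (z = nb x e ∧ nb x e ∈ A) := fun h => hz (h.1 ▸ h.2)
      simp [move, ih.1 z hz, this]
    · exact ih

lemma krun_le (A : Finset (S d)) (ω : Omega d) (w : List (S d × Clk d)) (x : S d) :
    krun A ω w x ≤ mass A ω := by
  by_cases hx : x ∈ A
  · exact (Finset.single_le_sum (f := krun A ω w) (fun _ _ => Nat.zero_le _) hx).trans
      (krun_inv A ω w).2
  · rw [(krun_inv A ω w).1 x hx]; exact Nat.zero_le _

lemma Good.isEvol (h : Good ω) {K : ℕ} (hK : mass A ω ≤ K) {L : ℝ → List (Lab d)}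
    (hL : ∀ t, Enum (kal K A) ω t (L t)) :
    IsEvol A ω (fun t => krun A ω ((L t).map Prod.fst)) := by
  refine ⟨fun x => ?_, fun t _ => ?_, fun t _ => ?_⟩
  · simp [(hL 0).zero, krun, init]
  · filter_upwards [h.enum_right hL t] with u hu
    rw [hu.1]
  · obtain ⟨L0, h1, h2⟩ := h.enum_left hL t
    set ξ := krun A ω (L0.map Prod.fst) with hξ
    refine ⟨ξ, h1.mono fun u hu => by simp only [hu.1, hξ], ?_⟩
    have h3 : ∀ x k e, t ∈ pts ω x (some (e, k)) → k < ξ x →
        ∃ n j, Rel0 (kal K A) ω ((x, some (e, k)), n, j) ∧ tm ω ((x, some (e, k)), n, j) = t := by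
      intro x k e h3 h4
      obtain ⟨n, j, h5, h6⟩ := mem_pts_iff.1 h3
      have h7 : ξ x ≤ mass A ω := krun_le A ω (L0.map Prod.fst) x
      refine ⟨n, j, ⟨mem_kal_some.2 ⟨?_, by omega⟩, h5⟩, h6.symm⟩
      by_contra hx
      have : ξ x = 0 := (krun_inv A ω (L0.map Prod.fst)).1 x hx
      omega
    rcases h2 with ⟨h2, h4⟩ | ⟨l, h4, h5, h2⟩
    · refine Or.inl ⟨fun x k e h5 => ?_, by simp only [h2, hξ]⟩
      by_contra h6
      obtain ⟨n, j, h7, h8⟩ := h3 x k e h5 (not_le.1 h6)
      exact h4 _ h7 h8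
    · have h6 : krun A ω ((L t).map Prod.fst) = app A ξ l.1 := by
        rw [h2, List.map_append, List.map_singleton, krun_snoc]
      have h7 := tm_mem_pts h4
      rw [h5] at h7
      obtain ⟨⟨x, _ | ⟨e, k⟩⟩, n, j⟩ := l
      · refine Or.inl ⟨fun y k e h8 => ?_, by simp only [h6, app]⟩
        exact absurd (h.noTie _ _ _ _ _ h7 h8).2 (by simp)
      · by_cases h8 : k < ξ x
        · exact Or.inr ⟨x, k, e, h7, h8, by simp only [h6, app, h8, if_true]⟩
        · refine Or.inl ⟨fun y k' e' h9 => ?_, by simp only [h6, app, h8, if_false]⟩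
          obtain ⟨rfl, rfl, -⟩ := h.noTie.jmp h7 h9
          exact not_lt.1 h8

lemma Good.exists_evol (h : Good ω) (A : Finset (S d)) : ∃ ζ, IsEvol A ω ζ := by
  choose L hL using h.exists_enum (kal (mass A ω) A)
  exact ⟨_, h.isEvol le_rfl hL⟩

lemma Good.evol_eq (h : Good ω) {ζ : ℝ → S d → ℕ} (hζ : IsEvol A ω ζ) {K : ℕ}
    (hK : mass A ω ≤ K) {t : ℝ} (ht : 0 ≤ t) {L : List (Lab d)} (hL : Enum (kal K A) ω t L) :
    ζ t = krun A ω (L.map Prod.fst) := by
  choose L' hL' using h.exists_enum (kal K A)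
  rw [hζ.unique h.noTie (h.isEvol hK hL') ht, (hL' t).unique hL]

end Pool.Agent.Lib.MP_dd0771_pr.Z
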