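import Pool.Agent.Lib.MP_dd0771_pr.Z.Enum
import Pool.Agent.Lib.MP_dd0771_pr.Z.Ord

/-! Law of the ordered rings of a finite family of clocks. -/

open MeasureTheory ProbabilityTheory Set Filter Topology
open scoped NNReal ENNReal Nat

namespace Pool.Agent.Lib.MP_dd0771_pr.Z

variable {d : ℕ}

instance (m : Measure ℕ) [IsProbabilityMeasure m] : IsProbabilityMeasure (cell m) := by
  unfold cell; infer_instance

/-- Weight of a word of clocks of the family `F` in one window. -/
noncomputable def wl (g : ℕ → ℝ) (δ : ℝ≥0∞) (F : Finset (S d × Clk d))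
    (w : List (S d × Clk d)) : ℝ≥0∞ :=
  ENNReal.ofReal (Real.exp (-∑ a ∈ F, (rate g δ a.2 : ℝ)) *
    (w.map fun a => (rate g δ a.2 : ℝ)).prod / (w.length)!)

lemma EnumW.nodup {F : Finset (S d × Clk d)} {ω : Omega d} {n : ℕ} {L : List (Lab d)}
    (h : EnumW F ω n L) : L.Nodup := h.1.imp fun h h' => by rw [h'] at h; exact lt_irrefl _ h

lemma EnumW.count {F : Finset (S d × Clk d)} {ω : Omega d} {n : ℕ} {L : List (Lab d)}
    (h : EnumW F ω n L) {a : S d × Clk d} (ha : a ∈ F) :
    (L.map Prod.fst).count a = (ω (a.1, some (a.2, n))).1 := by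
  classical
  rw [List.count_eq_countP, List.countP_map, List.countP_eq_length_filter,
    ← List.toFinset_card_of_nodup (h.nodup.filter _)]
  have h1 : (L.filter ((fun x => x == a) ∘ Prod.fst)).toFinset =
      (Finset.range (ω (a.1, some (a.2, n))).1).image fun j => ((a, n, j) : Lab d) := by
    ext ⟨b, m, j⟩
    simp only [List.mem_toFinset, List.mem_filter, h.2, Function.comp_apply, beq_iff_eq,
      Finset.mem_image, Finset.mem_range, Prod.mk.injEq, Rel0, idx]
    constructor
    · rintro ⟨⟨⟨-, h2⟩, rfl⟩, rfl⟩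
      exact ⟨j, h2, rfl, rfl, rfl⟩
    · rintro ⟨j', h2, rfl, rfl, rfl⟩
      exact ⟨⟨⟨ha, h2⟩, rfl⟩, rfl⟩
  rw [h1, Finset.card_image_of_injective _ fun j j' h2 => by simpa using h2, Finset.card_range]

lemma prod_count {α : Type} [BEq α] [LawfulBEq α] {F : Finset α} (r : α → ℝ) {w : List α}
    (hF : ∀ a ∈ w, a ∈ F) : ∏ a ∈ F, r a ^ w.count a = (w.map r).prod := by
  classical
  induction w with
  | nil => simp
  | cons b w ih =>
    rw [List.map_cons, List.prod_cons, ← ih fun a ha => hF a (List.mem_cons_of_mem _ ha)]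
    have hb := hF b List.mem_cons_self
    rw [← Finset.mul_prod_erase F _ hb, ← Finset.mul_prod_erase F _ hb, List.count_cons_self,
      pow_succ', mul_assoc]
    congr 2
    refine Finset.prod_congr rfl fun a ha => ?_
    rw [List.count_cons_of_ne (Finset.ne_of_mem_erase ha).symm]

lemma idx_inj : Function.Injective fun l : Lab d => (idx l, l.2.2) := by
  rintro ⟨⟨x, e⟩, m, k⟩ ⟨⟨x', e'⟩, m', k'⟩ h
  simp only [idx, Prod.mk.injEq, Option.some.injEq] at h ⊢
  tauto

variable (ν : Measure ℕ) [IsProbabilityMeasure ν] (g : ℕ → ℝ) (δ : ℝ≥0∞)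

instance (s : Option (Clk d × ℕ)) : IsProbabilityMeasure (countLaw ν g δ s) := by
  cases s <;> simp only [countLaw] <;> infer_instance

instance : IsProbabilityMeasure (law d ν g δ) := by
  unfold law; infer_instance

lemma win_set (F : Finset (S d × Clk d)) (n : ℕ) (w : List (S d × Clk d)) :
    ∃ W : Set (Omega d), MeasurableSet W ∧ DepOn W {i | ∃ c, i.2 = some (c, n)} ∧
      law d ν g δ W ≤ wl g δ F w ∧ ∀ ω L, EnumW F ω n L → L.map Prod.fst = w → ω ∈ W := by
  classical
  by_cases hF : ∀ a ∈ w, a ∈ F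
  swap
  · refine ⟨∅, MeasurableSet.empty, fun _ _ _ h => h, by simp, fun ω L h1 h2 => hF fun a ha => ?_⟩
    rw [← h2] at ha
    obtain ⟨l, hl, rfl⟩ := List.mem_map.1 ha
    exact ((h1.2 l).1 hl).1.1
  obtain ⟨s, hs1, hs2⟩ := ord_cnt F n w (fun b => Finset.range (w.count b)) (by simp) hF
  set s' := s.filter fun L => L.Nodup ∧ L.length = w.length ∧ ∀ l ∈ L, l.2.1 = n with hs'
  set J : Finset (Idx d) := F.image fun a => (a.1, some (a.2, n)) with hJ
  set c : Idx d → ℕ := fun i => (i.2.map fun q => w.count (i.1, q.1)).getD 0 with hc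
  set C : Set (Omega d) := {ω | ∀ i ∈ J, (ω i).1 = c i} with hC
  set B : List (Lab d) → Set (Idx d → ℕ → ℝ) :=
    fun L => {v | StrictMono fun i : Fin L.length => v (idx (L.get i)) (L.get i).2.2} with hB
  have hBm : ∀ L, MeasurableSet (B L) := fun L =>
    (measurable_pi_lambda (fun (v : Idx d → ℕ → ℝ) (i : Fin L.length) =>
      v (idx (L.get i)) (L.get i).2.2) fun i =>
      (measurable_pi_apply _).comp (measurable_pi_apply _)) (ord_meas _)
  have hf : Measurable fun (ω : Omega d) i => (ω i).2 :=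
    measurable_pi_lambda _ fun i => measurable_snd.comp (measurable_pi_apply i)
  have hCm : MeasurableSet C := by
    rw [hC, measurableSet_setOfPred]
    refine Measurable.forall fun i => Measurable.imp measurable_const ?_
    exact measurableSet_setOfPred.1 (measurableSet_eq_fun
      (measurable_fst.comp (measurable_pi_apply i)) measurable_const)
  refine ⟨⋃ L ∈ s', C ∩ (fun ω i => (ω i).2) ⁻¹' B L, ?_, ?_, ?_, ?_⟩
  · exact Finset.measurableSet_biUnion _ fun L _ => hCm.inter (hf (hBm L))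
  · intro ω ω' h1 h2
    obtain ⟨L, hL, h3, h4⟩ := mem_iUnion₂.1 h2
    refine mem_iUnion₂.2 ⟨L, hL, fun i hi => ?_, ?_⟩
    · obtain ⟨a, -, rfl⟩ := Finset.mem_image.1 hi
      rw [← h1 _ ⟨_, rfl⟩]
      exact h3 _ hi
    · have h5 : ∀ i : Fin L.length, ω (idx (L.get i)) = ω' (idx (L.get i)) := fun i =>
        h1 _ ⟨(L.get i).1.2, by
          rw [← (Finset.mem_filter.1 hL).2.2.2 _ (L.get_mem i)]; rfl⟩
      simpa only [hB, mem_preimage, mem_ofPred_eq, h5] using h4
  · set p := ∏ a ∈ F, poissonMeasure (rate g δ a.2) {w.count a} with hp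
    have h1 : ∀ L ∈ s', law d ν g δ (C ∩ (fun ω i => (ω i).2) ⁻¹' B L) ≤
        p * ((w.length)! : ℝ≥0∞)⁻¹ := by
      intro L hL
      obtain ⟨h1, h2, -⟩ := (Finset.mem_filter.1 hL).2
      have h3 := ord_split (fun i : Idx d => countLaw ν g δ i.2)
        (Measure.infinitePi fun _ : ℕ => unif) J c (hBm L)
      refine h3.le.trans ?_
      rw [hJ, Finset.prod_image fun a _ b _ h => by
        simp only [Prod.mk.injEq, Option.some.injEq, and_true] at h; exact Prod.ext h.1 h.2]
      refine mul_le_mul_right ?_ _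
      rw [ENNReal.le_inv_iff_mul_le, mul_comm, ← h2]
      exact ord_pos (f := fun i : Fin L.length => (idx (L.get i), (L.get i).2.2))
        (idx_inj.comp (List.nodup_iff_injective_get.1 h1))
    refine (measure_biUnion_finset_le _ _).trans ((Finset.sum_le_card_nsmul _ _ _ h1).trans ?_)
    have h2 : (s'.card : ℝ≥0∞) ≤ ((∏ b ∈ F, (w.count b)! : ℕ) : ℝ≥0∞) := by
      exact_mod_cast (Finset.card_filter_le _ _).trans hs1
    rw [nsmul_eq_mul]
    refine (mul_le_mul_left h2 _).trans (le_of_eq ?_)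
    rw [wl, ENNReal.ofReal_div_of_pos (by exact_mod_cast Nat.factorial_pos _), ← mul_assoc,
      ENNReal.ofReal_natCast, div_eq_mul_inv]
    congr 1
    rw [← prod_count _ hF, ← Finset.sum_neg_distrib, Real.exp_sum, ← Finset.prod_mul_distrib,
      ENNReal.ofReal_prod_of_nonneg fun a _ => by positivity, hp, Nat.cast_prod,
      ← Finset.prod_mul_distrib]
    refine Finset.prod_congr rfl fun a _ => ?_
    rw [poissonMeasure_singleton, ← ENNReal.ofReal_natCast, ← ENNReal.ofReal_mul (by positivity)]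
    congr 1
    have : ((w.count a)! : ℝ) ≠ 0 := by exact_mod_cast (Nat.factorial_pos _).ne'
    field_simp
  · intro ω L h1 h2
    have h3 : ∀ a ∈ F, w.count a = (ω (a.1, some (a.2, n))).1 := fun a ha => by
      rw [← h2]; exact h1.count ha
    refine mem_iUnion₂.2 ⟨L, Finset.mem_filter.2 ⟨hs2 L h1.nodup h2 fun l hl => ?_, h1.nodup,
      by rw [← h2, List.length_map], fun l hl => ((h1.2 l).1 hl).2⟩, fun i hi => ?_, ?_⟩
    · obtain ⟨⟨h4, h5⟩, h6⟩ := (h1.2 l).1 hl
      refine ⟨h6, Finset.mem_range.2 ?_⟩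
      rw [h3 _ h4, ← h6]; exact h5
    · obtain ⟨a, ha, rfl⟩ := Finset.mem_image.1 hi
      rw [← h3 a ha]; rfl
    · intro i j hij
      have h4 := List.pairwise_iff_get.1 h1.1 i j hij
      simp only [tm, ((h1.2 _).1 (L.get_mem i)).2, ((h1.2 _).1 (L.get_mem j)).2] at h4
      exact lt_of_add_lt_add_left h4

/-- Joint law of the initial counts in `Q` and of the words of the first `T` windows. -/
lemma joint_le (Q : Finset (S d)) (F : Finset (S d × Clk d)) (η : S d → ℕ)
    (w : ℕ → List (S d × Clk d)) (T : ℕ) :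
    law d ν g δ {ω | (∀ x ∈ Q, (ω (x, none)).1 = η x) ∧
      ∀ n < T, ∃ L, EnumW F ω n L ∧ L.map Prod.fst = w n} ≤
      (∏ x ∈ Q, ν {η x}) * ∏ n ∈ Finset.range T, wl g δ F (w n) := by
  classical
  have key : ∃ E : Set (Omega d), MeasurableSet E ∧
      DepOn E {i | ∀ c n, i.2 = some (c, n) → n < T} ∧
      law d ν g δ E ≤ (∏ x ∈ Q, ν {η x}) * ∏ n ∈ Finset.range T, wl g δ F (w n) ∧
      ∀ ω : Omega d, (∀ x ∈ Q, (ω (x, none)).1 = η x) →
        (∀ n < T, ∃ L, EnumW F ω n L ∧ L.map Prod.fst = w n) → ω ∈ E := by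
    induction T with
    | zero =>
      refine ⟨{ω | ∀ x ∈ Q, (ω (x, none)).1 = η x}, ?_, fun ω ω' h1 h2 x hx => ?_, ?_,
        fun ω h _ => h⟩
      · rw [measurableSet_setOfPred]
        refine Measurable.forall fun i => Measurable.imp measurable_const ?_
        exact measurableSet_setOfPred.1 (measurableSet_eq_fun
          (measurable_fst.comp (measurable_pi_apply _)) measurable_const)
      · rw [← h1 _ (by simp)]; exact h2 x hx
      · have h3 := ord_split (fun i : Idx d => countLaw ν g δ i.2)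
          (Measure.infinitePi fun _ : ℕ => unif) (Q.image fun x => (x, none)) (fun i => η i.1)
          MeasurableSet.univ
        rw [Finset.prod_image fun a _ b _ h => (Prod.mk.inj h).1, measure_univ] at h3
        rw [Finset.prod_range_zero]
        refine le_trans (measure_mono fun ω hω => mem_inter (fun i hi => ?_) trivial) h3.le
        obtain ⟨x, hx, rfl⟩ := Finset.mem_image.1 hi
        exact hω x hx
    | succ T ih =>
      obtain ⟨E, h1, h2, h3, h4⟩ := ih
      obtain ⟨W, g1, g2, g3, g4⟩ := win_set ν g δ F T (w T)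
      refine ⟨E ∩ W, h1.inter g1, (h2.mono fun i hi c n h => (hi c n h).trans T.lt_succ_self).inter
        (g2.mono ?_), ?_, fun ω h5 h6 => ⟨h4 ω h5 fun n hn => h6 n (hn.trans T.lt_succ_self), ?_⟩⟩
      · rintro i ⟨c, hc⟩ c' n h
        rw [hc] at h
        simp only [Option.some.injEq, Prod.mk.injEq] at h
        omega
      · have h5 := measure_inter_of_depOn (fun i : Idx d => cell (countLaw ν g δ i.2)) h1 g1 h2 g2
          (Set.disjoint_left.2 fun i hi ⟨c, hc⟩ => lt_irrefl _ (hi c T hc))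
        rw [Finset.prod_range_succ, ← mul_assoc]
        exact h5.le.trans (mul_le_mul' h3 g3)
      · obtain ⟨L, h7, h8⟩ := h6 T T.lt_succ_self
        exact g4 ω L h7 h8
  obtain ⟨E, -, -, h3, h4⟩ := key
  exact le_trans (measure_mono fun ω hω => h4 ω hω.1 hω.2) h3

lemma ae_good : ∀ᵐ ω ∂law d ν g δ, Good ω := by
  have h0 : MeasurePreserving (fun (ω : Omega d) (p : Idx d × ℕ) => (ω p.1).2 p.2) (law d ν g δ)
      (Measure.infinitePi fun _ => unif) := by
    have h1 : MeasurePreserving (fun (ω : Omega d) i => (ω i).2) (law d ν g δ)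
        (Measure.infinitePi fun _ => Measure.infinitePi fun _ : ℕ => unif) := by
      refine ⟨measurable_pi_lambda _ fun i => measurable_snd.comp (measurable_pi_apply i), ?_⟩
      rw [law, Measure.infinitePi_map_pi _ (f := fun _ => Prod.snd) fun _ => measurable_snd]
      congr 1
      ext1 i
      exact (measurePreserving_snd (μ := countLaw ν g δ i.2)).map_eq
    exact MeasurePreserving.comp ⟨MeasurableEquiv.measurable _,
      Measure.infinitePi_map_curry_symm (fun (_ : Idx d) (_ : ℕ) => unif)⟩ h1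
  have h1 : ∀ᵐ ω ∂law d ν g δ, ∀ i j, (ω i).2 j ∈ Ioc (0 : ℝ) 1 := by
    rw [ae_all_iff]; intro i
    rw [ae_all_iff]; intro j
    exact ((measurePreserving_eval_infinitePi (fun _ : Idx d × ℕ => unif) (i, j)).comp
      h0).quasiMeasurePreserving.ae (ae_restrict_mem measurableSet_Ioc)
  have h2 : ∀ᵐ ω ∂law d ν g δ, ∀ l l' : Lab d, tm ω l = tm ω l' → l = l' := by
    rw [ae_all_iff]; intro l
    rw [ae_all_iff]; intro l'
    by_cases h : l = l'
    · exact Eventually.of_forall fun _ _ => h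
    have h3 : ∀ᵐ p ∂(unif.prod unif), ¬ ((l.2.1 : ℝ) + p.1 = l'.2.1 + p.2) := by
      have hm : MeasurableSet {p : ℝ × ℝ | (l.2.1 : ℝ) + p.1 = l'.2.1 + p.2} :=
        measurableSet_eq_fun (by fun_prop) (by fun_prop)
      refine (Measure.ae_prod_iff_ae_ae hm.compl).2 (Eventually.of_forall fun u => ?_)
      have : ∀ᵐ v ∂unif, v ≠ (l.2.1 : ℝ) + u - l'.2.1 := Measure.ae_ne _ _
      filter_upwards [this] with v hv h4
      exact hv (by linarith)
    have h4 : (idx l, l.2.2) ≠ (idx l', l'.2.2) := fun h4 => h (idx_inj h4)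
    have h5 : MeasurePreserving (fun u : Idx d × ℕ → ℝ => (u (idx l, l.2.2), u (idx l', l'.2.2)))
        (Measure.infinitePi fun _ => unif) (unif.prod unif) :=
      ⟨by fun_prop, Measure.infinitePi_map_eval_prod (P := fun _ : Idx d × ℕ => unif) h4⟩
    filter_upwards [(h5.comp h0).quasiMeasurePreserving.ae h3] with ω h6 h7
    exact absurd h7 h6
  filter_upwards [h1, h2] with ω h3 h4 using ⟨h3, h4⟩

end Pool.Agent.Lib.MP_dd0771_pr.Z
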